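import Mathlib
import Pool.Agent.TH507.Defs

/-!
# Strong products: definitions and clique minors of products (helper88)
-/

set_option autoImplicit false

namespace Pool.Agent.K4H88.SP

open SimpleGraph Pool.Agent.TH507.Host

/-- The strong product of a family of graphs: different vectors are adjacent if in every
coordinate their entries are equal or adjacent. -/
def strongPi {ι : Type} {V : ι → Type} (G : ∀ i, SimpleGraph (V i)) : SimpleGraph (∀ i, V i) where
  Adj x y := x ≠ y ∧ ∀ i, x i = y i ∨ (G i).Adj (x i) (y i)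
  symm := ⟨fun _ _ h => ⟨h.1.symm, fun i => (h.2 i).imp Eq.symm SimpleGraph.Adj.symm⟩⟩
  loopless := ⟨fun _ h => h.1 rfl⟩

/-- The strong product of two graphs. -/
def strong {V W : Type} (G : SimpleGraph V) (H : SimpleGraph W) : SimpleGraph (V × W) where
  Adj x y := x ≠ y ∧ (x.1 = y.1 ∨ G.Adj x.1 y.1) ∧ (x.2 = y.2 ∨ H.Adj x.2 y.2)
  symm := ⟨fun _ _ h => ⟨h.1.symm, h.2.1.imp Eq.symm SimpleGraph.Adj.symm,
    h.2.2.imp Eq.symm SimpleGraph.Adj.symm⟩⟩
  loopless := ⟨fun _ h => h.1 rfl⟩

/-! ### Connected sets -/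

theorem conn_of_singleton {V : Type} (G : SimpleGraph V) (v : V) :
    (G.induce {x | x = v}).Connected := by
  rw [connected_iff_exists_forall_reachable]
  refine ⟨⟨v, rfl⟩, ?_⟩
  rintro ⟨w, rfl⟩
  exact Reachable.refl _

theorem conn_pi {ι : Type} [Finite ι] {V : ι → Type} (G : ∀ i, SimpleGraph (V i))
    (C : ∀ i, Set (V i)) (h : ∀ i, ((G i).induce (C i)).Connected) :
    ((strongPi G).induce {x : ∀ i, V i | ∀ i, x i ∈ C i}).Connected := by
  classical
  have := Fintype.ofFinite ι
  rw [SimpleGraph.connected_iff]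
  constructor
  · rintro ⟨x, hx⟩ ⟨y, hy⟩
    have key : ∀ t : Finset ι, ∃ z : ∀ i, V i, ∃ hz : ∀ i, z i ∈ C i,
        (∀ i ∈ t, z i = y i) ∧ (∀ i, i ∉ t → z i = x i) ∧
        ((strongPi G).induce {x : ∀ i, V i | ∀ i, x i ∈ C i}).Reachable ⟨x, hx⟩ ⟨z, hz⟩ := by
      intro t
      induction t using Finset.induction_on with
      | empty => exact ⟨x, hx, by simp, fun i _ => rfl, Reachable.refl _⟩
      | insert a t ha ih =>
        obtain ⟨z, hz, h1, h2, h3⟩ := ih
        have hmem : ∀ u : C a, ∀ i, Function.update z a u.1 i ∈ C i := by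
          intro u i
          by_cases hi : i = a
          · subst hi
            rw [Function.update_self]
            exact u.2
          · rw [Function.update_of_ne hi]
            exact hz i
        have hom : ∀ u v : C a, ((G a).induce (C a)).Reachable u v →
            ((strongPi G).induce {x : ∀ i, V i | ∀ i, x i ∈ C i}).Reachable
              ⟨Function.update z a u.1, hmem u⟩ ⟨Function.update z a v.1, hmem v⟩ := by
          rintro u v ⟨p⟩
          induction p with
          | nil => exact Reachable.refl _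
          | @cons u v w huv p ih =>
            refine Reachable.trans (SimpleGraph.Adj.reachable ?_) ih
            have huv' : (G a).Adj u.1 v.1 := huv
            refine ⟨fun he => ?_, fun i => ?_⟩
            · have := congrFun he a
              simp only [Function.Embedding.subtype_apply, Function.update_self] at this
              exact huv'.ne this
            · by_cases hi : i = a
              · subst hi
                right
                simp only [Function.Embedding.subtype_apply, Function.update_self]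
                exact huv'
              · left
                simp only [Function.Embedding.subtype_apply, Function.update_of_ne hi]
        refine ⟨Function.update z a (y a), hmem ⟨y a, hy a⟩, ?_, ?_, ?_⟩
        · intro i hi
          by_cases hia : i = a
          · subst hia
            rw [Function.update_self]
          · rw [Function.update_of_ne hia]
            exact h1 i ((Finset.mem_insert.1 hi).resolve_left hia)
        · intro i hi
          have hia : i ≠ a := fun h => hi (h ▸ Finset.mem_insert_self _ _)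
          rw [Function.update_of_ne hia]
          exact h2 i (fun h => hi (Finset.mem_insert_of_mem h))
        · refine h3.trans ?_
          have h4 := hom ⟨z a, hz a⟩ ⟨y a, hy a⟩ ((h a).preconnected _ _)
          have h5 : Function.update z a (z a) = z := Function.update_eq_self a z
          simp only [h5] at h4
          exact h4
    obtain ⟨z, hz, h1, -, h3⟩ := key Finset.univ
    have : z = y := funext fun i => h1 i (Finset.mem_univ i)
    subst this
    exact h3
  · exact ⟨⟨fun i => ((h i).nonempty.some).1, fun i => ((h i).nonempty.some).2⟩⟩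

theorem conn_prod {V W : Type} (G : SimpleGraph V) (H : SimpleGraph W) (A : Set V) (B : Set W)
    (hA : (G.induce A).Connected) (hB : (H.induce B).Connected) :
    ((strong G H).induce {x | x.1 ∈ A ∧ x.2 ∈ B}).Connected := by
  rw [SimpleGraph.connected_iff]
  constructor
  · rintro ⟨x, hx1, hx2⟩ ⟨y, hy1, hy2⟩
    have h1 : ∀ (w : W) (hw : w ∈ B) (u v : A), (G.induce A).Reachable u v →
        ((strong G H).induce {x | x.1 ∈ A ∧ x.2 ∈ B}).Reachable
          ⟨(u.1, w), u.2, hw⟩ ⟨(v.1, w), v.2, hw⟩ := by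
      rintro w hw u v ⟨p⟩
      induction p with
      | nil => exact Reachable.refl _
      | @cons u v w' huv p ih =>
        refine Reachable.trans (SimpleGraph.Adj.reachable ?_) ih
        have huv' : G.Adj u.1 v.1 := huv
        exact ⟨fun he => huv'.ne (congrArg Prod.fst he), Or.inr huv', Or.inl rfl⟩
    have h2 : ∀ (v : V) (hv : v ∈ A) (u w : B), (H.induce B).Reachable u w →
        ((strong G H).induce {x | x.1 ∈ A ∧ x.2 ∈ B}).Reachable
          ⟨(v, u.1), hv, u.2⟩ ⟨(v, w.1), hv, w.2⟩ := by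
      rintro v hv u w ⟨p⟩
      induction p with
      | nil => exact Reachable.refl _
      | @cons u u' w' huv p ih =>
        refine Reachable.trans (SimpleGraph.Adj.reachable ?_) ih
        have huv' : H.Adj u.1 u'.1 := huv
        exact ⟨fun he => huv'.ne (congrArg Prod.snd he), Or.inl rfl, Or.inr huv'⟩
    exact (h1 x.2 hx2 ⟨x.1, hx1⟩ ⟨y.1, hy1⟩ (hA.preconnected _ _)).trans
      (h2 y.1 hy1 ⟨x.2, hx2⟩ ⟨y.2, hy2⟩ (hB.preconnected _ _))
  · obtain ⟨a⟩ := hA.nonempty
    obtain ⟨b⟩ := hB.nonempty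
    exact ⟨⟨(a.1, b.1), a.2, b.2⟩⟩

/-! ### Minors of products -/

theorem minor_pi {ι : Type} [Finite ι] {V W : ι → Type} {G : ∀ i, SimpleGraph (V i)}
    {H : ∀ i, SimpleGraph (W i)} (h : ∀ i, IsMinor (H i) (G i)) :
    IsMinor (strongPi H) (strongPi G) := by
  classical
  choose B h1 h2 h3 using h
  refine ⟨fun s => {x | ∀ i, x i ∈ B i (s i)}, fun s => conn_pi G _ fun i => h1 i (s i), ?_, ?_⟩
  · intro s t hst
    obtain ⟨i, hi⟩ := Function.ne_iff.1 hst
    rw [Set.disjoint_left]
    intro x hx hy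
    exact Set.disjoint_left.1 (h2 i _ _ hi) (hx i) (hy i)
  · rintro s t ⟨hst, hadj⟩
    have hex : ∀ i, ∃ u v, u ∈ B i (s i) ∧ v ∈ B i (t i) ∧ (u = v ∨ (G i).Adj u v) ∧
        (s i ≠ t i → (G i).Adj u v) := by
      intro i
      rcases hadj i with h | h
      · obtain ⟨u⟩ := (h1 i (s i)).nonempty
        exact ⟨u.1, u.1, u.2, h ▸ u.2, Or.inl rfl, fun h' => absurd h h'⟩
      · obtain ⟨u, hu, v, hv, huv⟩ := h3 i _ _ h
        exact ⟨u, v, hu, hv, Or.inr huv, fun _ => huv⟩
    choose u v hu hv huv huv' using hex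
    obtain ⟨i, hi⟩ := Function.ne_iff.1 hst
    exact ⟨u, hu, v, hv, fun he => (huv' i hi).ne (congrFun he i), huv⟩

theorem minor_prod {V V' W W' : Type} {G : SimpleGraph V} {G' : SimpleGraph V'}
    {H : SimpleGraph W} {H' : SimpleGraph W'} (hG : IsMinor G' G) (hH : IsMinor H' H) :
    IsMinor (strong G' H') (strong G H) := by
  obtain ⟨B, h1, h2, h3⟩ := hG
  obtain ⟨C, k1, k2, k3⟩ := hH
  refine ⟨fun s => {x | x.1 ∈ B s.1 ∧ x.2 ∈ C s.2}, fun s => conn_prod G H _ _ (h1 _) (k1 _),
    ?_, ?_⟩
  · intro s t hst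
    rw [Set.disjoint_left]
    rintro x ⟨hx1, hx2⟩ ⟨hy1, hy2⟩
    by_cases h : s.1 = t.1
    · have h' : s.2 ≠ t.2 := fun h' => hst (Prod.ext h h')
      exact Set.disjoint_left.1 (k2 _ _ h') hx2 hy2
    · exact Set.disjoint_left.1 (h2 _ _ h) hx1 hy1
  · rintro s t ⟨hst, ha, hb⟩
    obtain ⟨u, u', hu, hu', e1, e1'⟩ : ∃ u u', u ∈ B s.1 ∧ u' ∈ B t.1 ∧ (u = u' ∨ G.Adj u u') ∧
        (s.1 ≠ t.1 → G.Adj u u') := by
      rcases ha with h | h
      · obtain ⟨u⟩ := (h1 s.1).nonempty
        exact ⟨u.1, u.1, u.2, h ▸ u.2, Or.inl rfl, fun h' => absurd h h'⟩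
      · obtain ⟨u, hu, v, hv, huv⟩ := h3 _ _ h
        exact ⟨u, v, hu, hv, Or.inr huv, fun _ => huv⟩
    obtain ⟨w, w', hw, hw', e2, e2'⟩ : ∃ w w', w ∈ C s.2 ∧ w' ∈ C t.2 ∧ (w = w' ∨ H.Adj w w') ∧
        (s.2 ≠ t.2 → H.Adj w w') := by
      rcases hb with h | h
      · obtain ⟨u⟩ := (k1 s.2).nonempty
        exact ⟨u.1, u.1, u.2, h ▸ u.2, Or.inl rfl, fun h' => absurd h h'⟩
      · obtain ⟨u, hu, v, hv, huv⟩ := k3 _ _ h
        exact ⟨u, v, hu, hv, Or.inr huv, fun _ => huv⟩
    refine ⟨(u, w), ⟨hu, hw⟩, (u', w'), ⟨hu', hw'⟩, fun he => ?_, e1, e2⟩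
    by_cases h : s.1 = t.1
    · have h' : s.2 ≠ t.2 := fun h' => hst (Prod.ext h h')
      exact (e2' h').ne (congrArg Prod.snd he)
    · exact (e1' h).ne (congrArg Prod.fst he)

theorem minor_inj {V V' : Type} {G : SimpleGraph V} {G' : SimpleGraph V'} (f : V' → V)
    (hf : Function.Injective f) (h : ∀ u v, G'.Adj u v → G.Adj (f u) (f v)) : IsMinor G' G := by
  refine ⟨fun v => {f v}, ?_, ?_, ?_⟩
  · intro v
    rw [connected_iff_exists_forall_reachable]
    refine ⟨⟨f v, rfl⟩, ?_⟩
    rintro ⟨w, rfl⟩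
    exact Reachable.refl _
  · intro x y hxy
    exact Set.disjoint_singleton.2 (fun h' => hxy (hf h'))
  · intro x y hxy
    exact ⟨f x, rfl, f y, rfl, h _ _ hxy⟩

theorem minor_induce {V : Type} (G : SimpleGraph V) (S : Set V) : IsMinor (G.induce S) G :=
  minor_inj Subtype.val Subtype.val_injective fun _ _ h => h

theorem minor_iso {V V' : Type} {G : SimpleGraph V} {G' : SimpleGraph V'} (e : G' ≃g G) :
    IsMinor G' G :=
  minor_inj e e.injective fun _ _ h => e.map_adj_iff.2 h

/-! ### Reindexing -/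

/-- Reindexing of a strong product. -/
def reindex {ι ι' : Type} (e : ι' ≃ ι) {V : ι → Type} (G : ∀ i, SimpleGraph (V i)) :
    strongPi (fun i' => G (e i')) ≃g strongPi G where
  toEquiv := Equiv.piCongrLeft V e
  map_rel_iff' := by
    intro x y
    constructor
    · rintro ⟨h1, h2⟩
      refine ⟨fun h => h1 (by rw [h]), fun i => ?_⟩
      have := h2 (e i)
      rwa [Equiv.piCongrLeft_apply_apply, Equiv.piCongrLeft_apply_apply] at this
    · rintro ⟨h1, h2⟩
      refine ⟨fun h => h1 ((Equiv.piCongrLeft V e).injective h), fun i => ?_⟩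
      obtain ⟨j, rfl⟩ := e.surjective i
      rw [Equiv.piCongrLeft_apply_apply, Equiv.piCongrLeft_apply_apply]
      exact h2 j

/-- A strong product over a sum of index types. -/
def sumIso {ι κ : Type} {V : ι ⊕ κ → Type} (G : ∀ i, SimpleGraph (V i)) :
    strongPi G ≃g strong (strongPi fun i => G (Sum.inl i)) (strongPi fun i => G (Sum.inr i)) where
  toEquiv := Equiv.sumPiEquivProdPi V
  map_rel_iff' := by
    intro x y
    constructor
    · rintro ⟨h1, h2, h3⟩
      refine ⟨fun h => h1 (by rw [h]), ?_⟩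
      rintro (i | i)
      · rcases h2 with h2 | h2
        · exact Or.inl (congrFun h2 i)
        · exact h2.2 i
      · rcases h3 with h3 | h3
        · exact Or.inl (congrFun h3 i)
        · exact h3.2 i
    · rintro ⟨h1, h2⟩
      refine ⟨fun h => h1 ((Equiv.sumPiEquivProdPi V).injective h), ?_, ?_⟩
      · by_cases h : ((Equiv.sumPiEquivProdPi V) x).1 = ((Equiv.sumPiEquivProdPi V) y).1
        · exact Or.inl h
        · exact Or.inr ⟨h, fun i => h2 (Sum.inl i)⟩
      · by_cases h : ((Equiv.sumPiEquivProdPi V) x).2 = ((Equiv.sumPiEquivProdPi V) y).2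
        · exact Or.inl h
        · exact Or.inr ⟨h, fun i => h2 (Sum.inr i)⟩

/-! ### Colourings -/

theorem colorable_prod {V W : Type} {G : SimpleGraph V} {H : SimpleGraph W} {a b : ℕ}
    (hG : G.Colorable a) (hH : H.Colorable b) : (strong G H).Colorable (a * b) := by
  obtain ⟨c⟩ := hG
  obtain ⟨d⟩ := hH
  have : (strong G H).Colorable (Fintype.card (Fin a × Fin b)) := by
    refine (Coloring.mk (fun x => (c x.1, d x.2)) ?_ : (strong G H).Coloring
      (Fin a × Fin b)).colorable
    rintro ⟨x1, x2⟩ ⟨y1, y2⟩ ⟨hne, h1, h2⟩ he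
    simp only [Prod.mk.injEq] at he
    rcases h1 with h1 | h1
    · rcases h2 with h2 | h2
      · exact hne (Prod.ext h1 h2)
      · exact d.valid h2 he.2
    · exact c.valid h1 he.1
  simpa using this

theorem colorable_pi {ι : Type} [Fintype ι] {V : ι → Type} {G : ∀ i, SimpleGraph (V i)}
    {a : ι → ℕ} (h : ∀ i, (G i).Colorable (a i)) : (strongPi G).Colorable (∏ i, a i) := by
  classical
  have c : ∀ i, (G i).Coloring (Fin (a i)) := fun i => (h i).some
  have : (strongPi G).Colorable (Fintype.card (∀ i, Fin (a i))) := by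
    refine (Coloring.mk (fun x i => c i (x i)) ?_ : (strongPi G).Coloring
      (∀ i, Fin (a i))).colorable
    rintro x y ⟨hne, h1⟩ he
    obtain ⟨i, hi⟩ := Function.ne_iff.1 hne
    exact (c i).valid ((h1 i).resolve_left hi) (congrFun he i)
  simpa using this

end Pool.Agent.K4H88.SP
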