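import Mathlib
import Pool.Agent.K4H88.SP.Defs
import Pool.Agent.R34.FH.Core

/-!
# Density of strong products and clique minors
-/

set_option autoImplicit false

namespace Pool.Agent.K4H88.SP

open SimpleGraph Finset Classical Pool.Agent.TH507.Host

/-- the number of ordered pairs of equal or adjacent vertices -/
noncomputable def cnt {V : Type} (G : SimpleGraph V) : ℕ :=
  Nat.card {p : V × V // p.1 = p.2 ∨ G.Adj p.1 p.2}

theorem cnt_eq {V : Type} [Fintype V] (G : SimpleGraph V) :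
    cnt G = Fintype.card V + Pool.Agent.R34.FH.pr G := by
  unfold cnt Pool.Agent.R34.FH.pr
  rw [Nat.card_eq_fintype_card, Fintype.card_subtype]
  rw [filter_or, card_union_of_disjoint]
  · congr 1
    rw [← Finset.card_univ]
    symm
    apply Finset.card_bij (fun v _ => (v, v))
    · intro v _
      simp
    · intro a _ b _ h
      exact congrArg Prod.fst h
    · rintro ⟨a, b⟩ h
      simp only [mem_filter, mem_univ, true_and] at h
      subst h
      exact ⟨a, mem_univ _, rfl⟩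
  · rw [Finset.disjoint_left]
    rintro ⟨a, b⟩ h1 h2
    simp only [mem_filter, mem_univ, true_and] at h1 h2
    subst h1
    exact h2.ne rfl

theorem cnt_prod {V W : Type} (G : SimpleGraph V) (H : SimpleGraph W) :
    cnt (strong G H) = cnt G * cnt H := by
  unfold cnt
  rw [← Nat.card_prod]
  apply Nat.card_congr
  refine ⟨fun p => (⟨(p.1.1.1, p.1.2.1), ?_⟩, ⟨(p.1.1.2, p.1.2.2), ?_⟩),
    fun p => ⟨((p.1.1.1, p.2.1.1), (p.1.1.2, p.2.1.2)), ?_⟩, ?_, ?_⟩
  · rcases p.2 with h | h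
    · exact Or.inl (congrArg Prod.fst h)
    · exact h.2.1
  · rcases p.2 with h | h
    · exact Or.inl (congrArg Prod.snd h)
    · exact h.2.2
  · by_cases h : ((p.1.1.1, p.2.1.1) : V × W) = (p.1.1.2, p.2.1.2)
    · exact Or.inl h
    · exact Or.inr ⟨h, p.1.2, p.2.2⟩
  · intro p
    rfl
  · intro p
    rfl

theorem cnt_pi {ι : Type} [Fintype ι] {V : ι → Type} [∀ i, Finite (V i)]
    (G : ∀ i, SimpleGraph (V i)) : cnt (strongPi G) = ∏ i, cnt (G i) := by
  unfold cnt
  rw [← Nat.card_pi]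
  apply Nat.card_congr
  refine ⟨fun p i => ⟨(p.1.1 i, p.1.2 i), ?_⟩,
    fun p => ⟨(fun i => (p i).1.1, fun i => (p i).1.2), ?_⟩, ?_, ?_⟩
  · rcases p.2 with h | h
    · exact Or.inl (congrFun h i)
    · exact h.2 i
  · by_cases h : (fun i => (p i).1.1) = (fun i => (p i).1.2)
    · exact Or.inl h
    · exact Or.inr ⟨h, fun i => (p i).2⟩
  · intro p
    rfl
  · intro p
    rfl

/-- **dense graphs have large clique minors** (Kostochka, Thomason; from the starting library) -/
theorem kt {V : Type} [Fintype V] (G : SimpleGraph V) (t : ℕ) (hV : 0 < Fintype.card V)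
    (h : (600 * (t * (4 + Nat.log 2 t)) + 1) * Fintype.card V ≤ cnt G) :
    IsMinor (⊤ : SimpleGraph (Fin t)) G := by
  set l := Nat.log 2 t with hl
  have ht : (t : ℝ) ≤ 2 ^ (l + 1) := by
    have h1 : t < 2 ^ (l + 1) := Nat.lt_pow_succ_log_self (by norm_num) t
    exact_mod_cast h1.le
  refine Pool.Agent.R34.FH.force (⊤ : SimpleGraph (Fin t)) (fun _ => 4 + l)
    (fun _ => by omega) ?_ G hV ?_
  · intro x
    have h1 : ((4 / 5 : ℝ) ^ (4 + l)) ^ (4 + l) ≤ 1 / 32 * (1 / 2) ^ l := by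
      rw [← pow_mul]
      have h2 : (4 + l) * (4 + l) = 16 + 8 * l + l * l := by ring
      rw [h2, pow_add, pow_add, pow_mul]
      have h3 : (4 / 5 : ℝ) ^ (l * l) ≤ 1 := pow_le_one₀ (by norm_num) (by norm_num)
      have h4 : ((4 / 5 : ℝ) ^ 8) ^ l ≤ (1 / 2) ^ l := by
        apply pow_le_pow_left₀ (by positivity)
        norm_num
      have h5 : (4 / 5 : ℝ) ^ 16 ≤ 1 / 32 := by norm_num
      calc (4 / 5 : ℝ) ^ 16 * ((4 / 5 : ℝ) ^ 8) ^ l * (4 / 5 : ℝ) ^ (l * l)
          ≤ (4 / 5 : ℝ) ^ 16 * ((4 / 5 : ℝ) ^ 8) ^ l * 1 := by gcongr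
        _ ≤ 1 / 32 * (1 / 2) ^ l := by rw [mul_one]; gcongr
    rw [sum_const, nsmul_eq_mul]
    have h6 : ∀ s : Finset (Fin t), (s.card : ℝ) ≤ t := by
      intro s
      have : s.card ≤ t := (card_le_univ s).trans (by simp)
      exact_mod_cast this
    refine (mul_le_mul ((h6 _).trans ht) h1 (by positivity) (by positivity)).trans ?_
    have h7 : (2 : ℝ) ^ (l + 1) * (1 / 32 * (1 / 2) ^ l) = 1 / 16 * (2 * (1 / 2)) ^ l := by
      rw [mul_pow, pow_succ]
      ring
    rw [h7]
    norm_num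
  · rw [cnt_eq] at h
    rw [sum_const, Finset.card_univ, Fintype.card_fin, smul_eq_mul]
    have h1 : (600 * (t * (4 + l)) + 1) * Fintype.card V =
      600 * (t * (4 + l)) * Fintype.card V + Fintype.card V := by ring
    omega

end Pool.Agent.K4H88.SP
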