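import Mathlib
import Pool.Agent.K4H88.SP.Defs

/-!
# Families of partial colourings and colourings of strong products
-/

set_option autoImplicit false

namespace Pool.Agent.K4H88.SP

open SimpleGraph Finset Classical

/-- A family of partial colourings with `κ` colours: whether a vertex is coloured depends only on
one of `T` patterns, and every vertex is coloured in a proportion `ρ` of the family. -/
def PC {V : Type} (G : SimpleGraph V) (κ T : ℕ) (ρ : ℝ) : Prop :=
  ∃ (S C P : Type) (_ : Fintype S) (_ : Nonempty S) (_ : Fintype C) (_ : Fintype P)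
    (π : V → P) (D : P → S → Prop) (c : S → V → C),
    Fintype.card C ≤ κ ∧ Fintype.card P ≤ T ∧
    (∀ s x y, G.Adj x y → D (π x) s → D (π y) s → c s x ≠ c s y) ∧
    ∀ x, ρ * Fintype.card S ≤ ((univ.filter (fun s => D (π x) s)).card : ℝ)

theorem pc_of_colorable {V : Type} {G : SimpleGraph V} {κ : ℕ} (h : G.Colorable κ) :
    PC G κ 1 1 := by
  obtain ⟨c⟩ := h
  refine ⟨Unit, Fin κ, Unit, inferInstance, inferInstance, inferInstance, inferInstance,
    fun _ => (), fun _ _ => True, fun _ x => c x, by simp, by simp, ?_, ?_⟩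
  · intro _ x y hxy _ _
    exact c.valid hxy
  · intro x
    simp

theorem pc_pi {ι : Type} [Fintype ι] {V : ι → Type} {G : ∀ i, SimpleGraph (V i)}
    {κ T : ι → ℕ} {ρ : ι → ℝ} (hρ : ∀ i, 0 ≤ ρ i) (h : ∀ i, PC (G i) (κ i) (T i) (ρ i)) :
    PC (strongPi G) (∏ i, κ i) (∏ i, T i) (∏ i, ρ i) := by
  choose S C P fS nS fC fP π D c h1 h2 h3 h4 using h
  refine ⟨∀ i, S i, ∀ i, C i, ∀ i, P i, inferInstance, inferInstance, inferInstance,
    inferInstance, fun x i => π i (x i), fun p s => ∀ i, D i (p i) (s i),
    fun s x i => c i (s i) (x i), ?_, ?_, ?_, ?_⟩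
  · rw [Fintype.card_pi]
    exact prod_le_prod' fun i _ => h1 i
  · rw [Fintype.card_pi]
    exact prod_le_prod' fun i _ => h2 i
  · rintro s x y ⟨hne, hadj⟩ hx hy he
    obtain ⟨i, hi⟩ := Function.ne_iff.1 hne
    exact h3 i (s i) _ _ ((hadj i).resolve_left hi) (hx i) (hy i) (congrFun he i)
  · intro x
    have e : (univ.filter (fun s : ∀ i, S i => ∀ i, D i (π i (x i)) (s i))) =
        Fintype.piFinset (fun i => univ.filter (fun s => D i (π i (x i)) s)) := by
      ext s
      simp [Fintype.mem_piFinset]
    have main : (∏ i, ρ i) * (Fintype.card (∀ i, S i) : ℝ) ≤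
        ((Fintype.piFinset (fun i => univ.filter (fun s => D i (π i (x i)) s))).card : ℝ) := by
      rw [Fintype.card_piFinset, Fintype.card_pi]
      push_cast
      rw [← prod_mul_distrib]
      exact prod_le_prod (fun i _ => mul_nonneg (hρ i) (Nat.cast_nonneg _)) fun i _ => h4 i (x i)
    rw [← e] at main
    convert main

/-- **covering**: colour with `m` members of the family -/
theorem pc_color {V : Type} {G : SimpleGraph V} {κ T m : ℕ} {ρ : ℝ} (h : PC G κ T ρ)
    (h1 : ρ ≤ 1) (hm : (T : ℝ) * (1 - ρ) ^ m < 1) : G.Colorable (m * κ) := by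
  obtain ⟨S, C, P, _, _, _, _, π, D, c, hC, hP, hc, hρ⟩ := h
  have hS : (0 : ℝ) < Fintype.card S := by exact_mod_cast Fintype.card_pos
  obtain ⟨t, ht⟩ : ∃ t : Fin m → S, ∀ x, ∃ j, D (π x) (t j) := by
    by_contra hcon
    push Not at hcon
    choose x hx using hcon
    let bad : P → Finset (Fin m → S) := fun p =>
      Fintype.piFinset (fun _ => univ.filter (fun s => ¬ D p s))
    let R : Finset P := univ.filter (fun p => ∃ x, π x = p)
    have hsub : (univ : Finset (Fin m → S)) ⊆ R.biUnion bad := by
      intro t _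
      refine mem_biUnion.2 ⟨π (x t), mem_filter.2 ⟨mem_univ _, _, rfl⟩, ?_⟩
      rw [Fintype.mem_piFinset]
      intro j
      exact mem_filter.2 ⟨mem_univ _, hx t j⟩
    have hbad : ∀ p ∈ R, ((bad p).card : ℝ) ≤ ((1 - ρ) * Fintype.card S) ^ m := by
      intro p hp
      obtain ⟨y, rfl⟩ := (mem_filter.1 hp).2
      rw [Fintype.card_piFinset]
      simp only [prod_const, Finset.card_univ, Fintype.card_fin]
      push_cast
      apply pow_le_pow_left₀ (Nat.cast_nonneg _)
      have e := card_filter_add_card_filter_not (s := (univ : Finset S))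
        (fun s => D (π y) s)
      have e' : ((univ.filter (fun s => D (π y) s)).card : ℝ) +
          ((univ.filter (fun s => ¬ D (π y) s)).card : ℝ) = Fintype.card S := by
        exact_mod_cast e
      have := hρ y
      linarith
    have hcard : (Fintype.card S : ℝ) ^ m ≤ T * ((1 - ρ) * Fintype.card S) ^ m := by
      have e1 : ((univ : Finset (Fin m → S)).card : ℝ) = (Fintype.card S : ℝ) ^ m := by
        rw [Finset.card_univ, Fintype.card_fun, Fintype.card_fin]
        push_cast
        rfl
      rw [← e1]
      calc ((univ : Finset (Fin m → S)).card : ℝ) ≤ ((R.biUnion bad).card : ℝ) := by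
            exact_mod_cast card_le_card hsub
        _ ≤ ∑ p ∈ R, ((bad p).card : ℝ) := by exact_mod_cast card_biUnion_le
        _ ≤ ∑ p ∈ R, ((1 - ρ) * Fintype.card S) ^ m := sum_le_sum hbad
        _ = R.card * ((1 - ρ) * Fintype.card S) ^ m := by rw [sum_const, nsmul_eq_mul]
        _ ≤ T * ((1 - ρ) * Fintype.card S) ^ m := by
            apply mul_le_mul_of_nonneg_right
            · have : R.card ≤ T := (card_le_univ R).trans hP
              exact_mod_cast this
            · have : 0 ≤ 1 - ρ := by linarith
              positivity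
    rw [mul_pow, ← mul_assoc] at hcard
    have h5 : (0 : ℝ) < (Fintype.card S : ℝ) ^ m := by positivity
    nlinarith
  choose j hj using ht
  have hcol : G.Colorable (Fintype.card (Fin m × C)) := by
    refine (Coloring.mk (fun x => (j x, c (t (j x)) x)) ?_ : G.Coloring (Fin m × C)).colorable
    intro x y hxy he
    simp only [Prod.mk.injEq] at he
    have h6 := hj y
    rw [← he.1] at h6
    apply hc (t (j x)) x y hxy (hj x) h6
    rw [he.2, he.1]
  refine hcol.mono ?_
  rw [Fintype.card_prod, Fintype.card_fin]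
  exact Nat.mul_le_mul_left _ hC

end Pool.Agent.K4H88.SP
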