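import Mathlib
import Pool.Agent.K4H88.SP.Dens
import Pool.Agent.K4H88.SP.Frac

/-!
# Critical vertex sets: either a dense small subgraph or few colours fractionally
-/

set_option autoImplicit false

namespace Pool.Agent.K4H88.SP

open SimpleGraph Finset Classical

variable {V : Type} [Fintype V]

/-- the number of ordered pairs of adjacent vertices inside `H` -/
noncomputable def ep (G : SimpleGraph V) (H : Finset V) : ℕ :=
  ((H ×ˢ H).filter (fun p => G.Adj p.1 p.2)).card

/-- the degree of `x` into `H` -/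
noncomputable def dgi (G : SimpleGraph V) (H : Finset V) (x : V) : ℕ :=
  (H.filter (fun y => G.Adj x y)).card

omit [Fintype V] in
theorem ep_eq (G : SimpleGraph V) (H : Finset V) : ep G H = ∑ x ∈ H, dgi G H x := by
  unfold ep dgi
  rw [card_filter, sum_product]
  refine sum_congr rfl fun x _ => ?_
  rw [card_filter]

omit [Fintype V] in
theorem cnt_induce (G : SimpleGraph V) (H : Finset V) :
    cnt (G.induce (H : Set V)) = H.card + ep G H := by
  have h1 : cnt (G.induce (H : Set V)) =
      ((H ×ˢ H).filter (fun p => p.1 = p.2 ∨ G.Adj p.1 p.2)).card := by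
    unfold cnt
    rw [← Nat.card_eq_finsetCard]
    apply Nat.card_congr
    refine ⟨fun p => ⟨(p.1.1.1, p.1.2.1), ?_⟩, fun p => ⟨(⟨p.1.1, ?_⟩, ⟨p.1.2, ?_⟩), ?_⟩, ?_, ?_⟩
    · rw [mem_filter, mem_product]
      refine ⟨⟨p.1.1.2, p.1.2.2⟩, ?_⟩
      rcases p.2 with h | h
      · exact Or.inl (congrArg Subtype.val h)
      · exact Or.inr h
    · exact (mem_product.1 (mem_filter.1 p.2).1).1
    · exact (mem_product.1 (mem_filter.1 p.2).1).2
    · rcases (mem_filter.1 p.2).2 with h | h
      · exact Or.inl (Subtype.ext h)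
      · exact Or.inr h
    · intro p
      rfl
    · intro p
      rfl
  rw [h1, filter_or, card_union_of_disjoint]
  · congr 1
    symm
    apply Finset.card_bij (fun v _ => (v, v))
    · intro v hv
      simp [hv]
    · intro a _ b _ h
      exact congrArg Prod.fst h
    · rintro ⟨a, b⟩ h
      simp only [mem_filter, mem_product] at h
      obtain ⟨⟨ha, hb⟩, rfl⟩ := h
      exact ⟨a, ha, rfl⟩
  · rw [Finset.disjoint_left]
    rintro ⟨a, b⟩ h1 h2
    simp only [mem_filter] at h1 h2
    obtain ⟨_, rfl⟩ := h1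
    exact h2.2.ne rfl

/-- `H` can be properly coloured with `j` colours -/
def ColOn (G : SimpleGraph V) (j : ℕ) (H : Finset V) : Prop :=
  ∃ c : V → ℕ, (∀ x ∈ H, c x < j) ∧ ∀ x ∈ H, ∀ y ∈ H, G.Adj x y → c x ≠ c y

theorem colOn_univ {G : SimpleGraph V} {j : ℕ} (h : ColOn G j univ) : G.Colorable j := by
  obtain ⟨c, h1, h2⟩ := h
  exact ⟨Coloring.mk (fun x => (⟨c x, h1 x (mem_univ x)⟩ : Fin j)) fun {x y} hxy he =>
    h2 x (mem_univ x) y (mem_univ y) hxy (congrArg Fin.val he)⟩

omit [Fintype V] in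
theorem colOn_mono {G : SimpleGraph V} {j : ℕ} {H H' : Finset V} (h : H' ⊆ H)
    (hc : ColOn G j H) : ColOn G j H' := by
  obtain ⟨c, h1, h2⟩ := hc
  exact ⟨c, fun x hx => h1 x (h hx), fun x hx y hy => h2 x (h hx) y (h hy)⟩

/-- `H` is a minimal set without a colouring with `j` colours -/
def Crit (G : SimpleGraph V) (j : ℕ) (H : Finset V) : Prop :=
  ¬ ColOn G j H ∧ ∀ H', H' ⊂ H → ColOn G j H'

omit [Fintype V] in
theorem crit_exists {G : SimpleGraph V} {j : ℕ} : ∀ U : Finset V, ¬ ColOn G j U →
    ∃ H, H ⊆ U ∧ Crit G j H := by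
  intro U
  induction U using Finset.strongInduction with
  | H U ih =>
    intro hU
    by_cases h : ∀ H', H' ⊂ U → ColOn G j H'
    · exact ⟨U, Subset.refl _, hU, h⟩
    · push Not at h
      obtain ⟨H', h1, h2⟩ := h
      obtain ⟨H, h3, h4⟩ := ih H' h1 h2
      exact ⟨H, h3.trans h1.1, h4⟩

omit [Fintype V] in
theorem crit_nonempty {G : SimpleGraph V} {j : ℕ} {H : Finset V} (h : Crit G j H) :
    H.Nonempty := by
  rw [nonempty_iff_ne_empty]
  rintro rfl
  exact h.1 ⟨fun _ => 0, by simp, by simp⟩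

omit [Fintype V] in
theorem crit_deg {G : SimpleGraph V} {j : ℕ} {H : Finset V} (h : Crit G j H) {x : V}
    (hx : x ∈ H) : j ≤ dgi G H x := by
  by_contra hcon
  push Not at hcon
  obtain ⟨c, h1, h2⟩ := h.2 (H.erase x) (erase_ssubset hx)
  obtain ⟨a, ha, ha'⟩ : ∃ a ∈ range j, a ∉ (H.filter (fun y => G.Adj x y)).image c := by
    apply exists_mem_notMem_of_card_lt_card
    rw [card_range]
    exact card_image_le.trans_lt hcon
  rw [mem_range] at ha
  apply h.1
  refine ⟨Function.update c x a, ?_, ?_⟩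
  · intro y hy
    by_cases hyx : y = x
    · subst hyx
      rw [Function.update_self]
      exact ha
    · rw [Function.update_of_ne hyx]
      exact h1 y (mem_erase.2 ⟨hyx, hy⟩)
  · intro y hy z hz hyz
    by_cases hyx : y = x
    · subst hyx
      have hzy : z ≠ y := hyz.ne'
      rw [Function.update_self, Function.update_of_ne hzy]
      rintro rfl
      exact ha' (mem_image.2 ⟨z, mem_filter.2 ⟨hz, hyz⟩, rfl⟩)
    · by_cases hzx : z = x
      · subst hzx
        rw [Function.update_self, Function.update_of_ne hyx]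
        rintro rfl
        exact ha' (mem_image.2 ⟨y, mem_filter.2 ⟨hy, hyz.symm⟩, rfl⟩)
      · rw [Function.update_of_ne hyx, Function.update_of_ne hzx]
        exact h2 y (mem_erase.2 ⟨hyx, hy⟩) z (mem_erase.2 ⟨hzx, hz⟩) hyz

omit [Fintype V] in
theorem crit_ep {G : SimpleGraph V} {j : ℕ} {H : Finset V} (h : Crit G j H) :
    j * H.card ≤ ep G H := by
  rw [ep_eq, mul_comm, ← smul_eq_mul, ← sum_const]
  exact sum_le_sum fun x hx => crit_deg h hx

omit [Fintype V] in
theorem crit_deg_eq {G : SimpleGraph V} {j : ℕ} {H : Finset V} (h : Crit G j H)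
    (hsp : ep G H ≤ j * H.card) {x : V} (hx : x ∈ H) : dgi G H x = j := by
  by_contra hne
  have h1 : j < dgi G H x := lt_of_le_of_ne (crit_deg h hx) (Ne.symm hne)
  have h2 : ∑ _y ∈ H, j < ∑ y ∈ H, dgi G H y :=
    sum_lt_sum (fun y hy => crit_deg h hy) ⟨x, hx, h1⟩
  rw [← ep_eq, sum_const, smul_eq_mul, mul_comm] at h2
  omega

omit [Fintype V] in
theorem crit_card {G : SimpleGraph V} {j : ℕ} {H : Finset V} (h : Crit G j H)
    (hsp : ep G H ≤ j * H.card) (hfree : G.CliqueFree (j + 1)) : j + 2 ≤ H.card := by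
  obtain ⟨x, hx⟩ := crit_nonempty h
  have hsub : ∀ y ∈ H, H.filter (fun z => G.Adj y z) ⊆ H.erase y := by
    intro y hy z hz
    rw [mem_filter] at hz
    exact mem_erase.2 ⟨hz.2.ne', hz.1⟩
  have h1 := card_le_card (hsub x hx)
  rw [card_erase_of_mem hx] at h1
  have h2 : (H.filter (fun z => G.Adj x z)).card = j := crit_deg_eq h hsp hx
  have hpos : 0 < H.card := card_pos.2 ⟨x, hx⟩
  rw [h2] at h1
  by_contra hcon
  have hc : H.card = j + 1 := by omega
  refine hfree H ⟨?_, hc⟩
  intro y hy z hz hyz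
  have h3 : (H.filter (fun z => G.Adj y z)) = H.erase y := by
    apply eq_of_subset_of_card_le (hsub y hy)
    rw [card_erase_of_mem hy]
    have h4 : (H.filter (fun z => G.Adj y z)).card = j := crit_deg_eq h hsp hy
    omega
  have h5 : z ∈ H.filter (fun z => G.Adj y z) := by
    rw [h3]
    exact mem_erase.2 ⟨hyz.symm, hz⟩
  exact (mem_filter.1 h5).2

omit [Fintype V] in
theorem crit_disjoint {G : SimpleGraph V} {j : ℕ} {H H' : Finset V} (h : Crit G j H)
    (h' : Crit G j H') (hsp : ∀ U : Finset V, ep G U ≤ j * U.card) {x : V} (hx : x ∈ H)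
    (hx' : x ∈ H') : H = H' := by
  by_contra hne
  set I := H ∩ H' with hI
  have hIH : I ⊂ H := by
    refine ⟨inter_subset_left, fun hs => ?_⟩
    have h1 : H ⊆ H' := hs.trans inter_subset_right
    have h2 : H ⊂ H' := ⟨h1, fun h3 => hne (Subset.antisymm h1 h3)⟩
    exact h.1 (h'.2 H h2)
  have hxI : x ∈ I := mem_inter.2 ⟨hx, hx'⟩
  -- an edge between `I` and the rest of `H`
  obtain ⟨u, hu, v, hv, huv⟩ : ∃ u ∈ I, ∃ v ∈ H \ I, G.Adj u v := by
    by_contra hcon
    push Not at hcon
    obtain ⟨c1, a1, a2⟩ := h.2 I hIH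
    obtain ⟨c2, b1, b2⟩ := h.2 (H \ I) (by
      refine ⟨sdiff_subset, fun hs => ?_⟩
      exact (mem_sdiff.1 (hs hx)).2 hxI)
    apply h.1
    refine ⟨fun y => if y ∈ I then c1 y else c2 y, ?_, ?_⟩
    · intro y hy
      by_cases hyI : y ∈ I
      · simp only [if_pos hyI]
        exact a1 y hyI
      · simp only [if_neg hyI]
        exact b1 y (mem_sdiff.2 ⟨hy, hyI⟩)
    · intro y hy z hz hyz
      by_cases hyI : y ∈ I
      · by_cases hzI : z ∈ I
        · simp only [if_pos hyI, if_pos hzI]
          exact a2 y hyI z hzI hyz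
        · exact absurd hyz (hcon y hyI z (mem_sdiff.2 ⟨hz, hzI⟩))
      · by_cases hzI : z ∈ I
        · exact absurd hyz.symm (hcon z hzI y (mem_sdiff.2 ⟨hy, hyI⟩))
        · simp only [if_neg hyI, if_neg hzI]
          exact b2 y (mem_sdiff.2 ⟨hy, hyI⟩) z (mem_sdiff.2 ⟨hz, hzI⟩) hyz
  have hepI : ep G I < j * I.card := by
    rw [ep_eq]
    have h1 : ∑ y ∈ I, dgi G I y < ∑ _y ∈ I, j := by
      apply sum_lt_sum
      · intro y hy
        rw [← crit_deg_eq h (hsp H) (hIH.1 hy)]
        exact card_le_card (filter_subset_filter _ hIH.1)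
      · refine ⟨u, hu, ?_⟩
        rw [← crit_deg_eq h (hsp H) (hIH.1 hu)]
        apply card_lt_card
        refine ⟨filter_subset_filter _ hIH.1, fun hs => ?_⟩
        have h2 : v ∈ H.filter (fun y => G.Adj u y) :=
          mem_filter.2 ⟨(mem_sdiff.1 hv).1, huv⟩
        exact (mem_sdiff.1 hv).2 (mem_filter.1 (hs h2)).1
    rw [sum_const, smul_eq_mul, mul_comm] at h1
    exact h1
  have h3 : ep G H + ep G H' ≤ ep G (H ∪ H') + ep G I := by
    unfold ep
    rw [← card_union_add_card_inter]
    apply Nat.add_le_add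
    · apply card_le_card
      intro p hp
      rw [mem_union, mem_filter, mem_filter, mem_product, mem_product] at hp
      rw [mem_filter, mem_product, mem_union, mem_union]
      tauto
    · apply card_le_card
      intro p hp
      rw [mem_inter, mem_filter, mem_filter, mem_product, mem_product] at hp
      rw [mem_filter, mem_product, hI, mem_inter, mem_inter]
      tauto
  have h4 := hsp (H ∪ H')
  have h5 := crit_ep h
  have h6 := crit_ep h'
  have h7 : (H ∪ H').card + I.card = H.card + H'.card := card_union_add_card_inter H H'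
  have h8 : j * (H ∪ H').card + j * I.card = j * H.card + j * H'.card := by
    rw [← mul_add, ← mul_add, h7]
  omega

/-- **dichotomy**: a `K_{j+1}`-free graph in which no vertex set has average degree larger than `j`
and which is not `j`-colourable has a fractional colouring with less than `j + 1` colours. -/
theorem dich {G : SimpleGraph V} {j : ℕ} (hfree : G.CliqueFree (j + 1))
    (hcol : ¬ G.Colorable j) (hsp : ∀ U : Finset V, ep G U ≤ j * U.card) :
    PC G j (j + 3) ((j + 1 : ℝ) / (j + 2)) := by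
  have hj : 0 < j := by
    rcases Nat.eq_zero_or_pos j with h | h
    · subst h
      have hE : IsEmpty V := by
        by_contra hne
        rw [not_isEmpty_iff] at hne
        obtain ⟨v⟩ := hne
        exact hfree {v} ⟨by simp, by simp⟩
      exact absurd ⟨Coloring.mk (fun v => hE.elim v) fun {v} => hE.elim v⟩ hcol
    · exact h
  have hu : ∀ H : Finset V, ∃ u : Fin (j + 2) → V, Crit G j H →
      Function.Injective u ∧ ∀ s, u s ∈ H := by
    intro H
    by_cases h : Crit G j H
    · have h1 := crit_card h (hsp H) hfree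
      have h2 : Fintype.card (Fin (j + 2)) ≤ Fintype.card H := by
        rw [Fintype.card_fin, Fintype.card_coe]
        exact h1
      obtain ⟨f⟩ := Function.Embedding.nonempty_of_card_le h2
      exact ⟨fun s => (f s).1, fun _ => ⟨fun a b hab => f.injective (Subtype.ext hab),
        fun s => (f s).2⟩⟩
    · obtain ⟨v⟩ : Nonempty V := by
        by_contra hne
        rw [not_nonempty_iff] at hne
        exact hcol ⟨Coloring.mk (fun v => hne.elim v) fun {v} => hne.elim v⟩
      exact ⟨fun _ => v, fun h' => absurd h' h⟩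
  choose u hu using hu
  let π : V → Option (Fin (j + 2)) := fun x =>
    if h : ∃ s, ∃ H, Crit G j H ∧ u H s = x then some h.choose else none
  have hπ : ∀ H s, Crit G j H → π (u H s) = some s := by
    intro H s hH
    have h : ∃ s', ∃ H', Crit G j H' ∧ u H' s' = u H s := ⟨s, H, hH, rfl⟩
    have h1 : π (u H s) = some h.choose := dif_pos h
    rw [h1]
    obtain ⟨H', h2, h3⟩ := h.choose_spec
    have h4 : H' = H := by
      apply crit_disjoint h2 hH hsp (x := u H s)
      · rw [← h3]
        exact (hu H' h2).2 _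
      · exact (hu H hH).2 _
    subst h4
    rw [(hu H' h2).1 h3]
  have hc : ∀ s : Fin (j + 2), ColOn G j (univ.filter (fun x => π x ≠ some s)) := by
    intro s
    by_contra hcon
    obtain ⟨H, h1, h2⟩ := crit_exists _ hcon
    have h3 := h1 ((hu H h2).2 s)
    exact (mem_filter.1 h3).2 (hπ H s h2)
  choose c hc1 hc2 using hc
  refine ⟨Fin (j + 2), Fin j, Option (Fin (j + 2)), inferInstance, inferInstance, inferInstance,
    inferInstance, π, fun p s => p ≠ some s, fun s x => ⟨c s x % j, Nat.mod_lt _ hj⟩, by simp,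
    by simp, ?_, ?_⟩
  · intro s x y hxy hx hy he
    have hx' : x ∈ univ.filter (fun x => π x ≠ some s) := mem_filter.2 ⟨mem_univ _, hx⟩
    have hy' : y ∈ univ.filter (fun x => π x ≠ some s) := mem_filter.2 ⟨mem_univ _, hy⟩
    have h1 := congrArg Fin.val he
    simp only at h1
    rw [Nat.mod_eq_of_lt (hc1 s x hx'), Nat.mod_eq_of_lt (hc1 s y hy')] at h1
    exact hc2 s x hx' y hy' hxy h1
  · intro x
    have h1 : j + 1 ≤ (univ.filter (fun s : Fin (j + 2) => π x ≠ some s)).card := by
      have h2 : (univ.filter (fun s : Fin (j + 2) => ¬ (π x ≠ some s))).card ≤ 1 := by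
        rw [card_le_one]
        intro a ha b hb
        rw [mem_filter, not_not] at ha hb
        have := ha.2.symm.trans hb.2
        exact Option.some_injective _ this
      have h3 := card_filter_add_card_filter_not (s := (univ : Finset (Fin (j + 2))))
        (fun s => π x ≠ some s)
      rw [Finset.card_univ, Fintype.card_fin] at h3
      omega
    rw [Fintype.card_fin]
    push_cast
    rw [div_mul_cancel₀ _ (by positivity)]
    exact_mod_cast h1

/-- a dense set can be found inside a connected set -/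
theorem dense_small {G : SimpleGraph V} {j M : ℕ}
    (hM : ∀ U : Finset V, (G.induce (U : Set V)).Connected → U.card < M)
    (h : ∃ U : Finset V, j * U.card < ep G U) :
    ∃ U : Finset V, U.Nonempty ∧ U.card < M ∧ j * U.card < ep G U := by
  have hex : ∃ n, ∃ U : Finset V, U.card = n ∧ j * U.card < ep G U := by
    obtain ⟨U, hU⟩ := h
    exact ⟨U.card, U, rfl, hU⟩
  obtain ⟨U, hUn, hU⟩ := Nat.find_spec hex
  have hmin : ∀ U' : Finset V, U' ⊂ U → ep G U' ≤ j * U'.card := by
    intro U' hU'
    by_contra hcon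
    push Not at hcon
    have h1 := Nat.find_min' hex ⟨U', rfl, hcon⟩
    have h2 := card_lt_card hU'
    omega
  have hne : U.Nonempty := by
    rw [nonempty_iff_ne_empty]
    rintro rfl
    simp [ep] at hU
  refine ⟨U, hne, hM U ?_, hU⟩
  rw [SimpleGraph.connected_iff]
  refine ⟨?_, ?_⟩
  · intro a b
    by_contra hab
    set A : Finset V := U.filter (fun x => ∃ hx : x ∈ (U : Set V),
      (G.induce (U : Set V)).Reachable a ⟨x, hx⟩) with hA
    have haA : a.1 ∈ A := mem_filter.2 ⟨a.2, a.2, Reachable.refl _⟩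
    have hbA : b.1 ∉ A := by
      intro hb
      obtain ⟨_, hb', hb''⟩ := mem_filter.1 hb
      exact hab hb''
    have hno : ∀ x ∈ A, ∀ y ∈ U \ A, ¬ G.Adj x y := by
      intro x hx y hy hxy
      obtain ⟨_, hx', hx''⟩ := mem_filter.1 hx
      apply (mem_sdiff.1 hy).2
      refine mem_filter.2 ⟨(mem_sdiff.1 hy).1, (mem_sdiff.1 hy).1, ?_⟩
      refine hx''.trans (SimpleGraph.Adj.reachable ?_)
      exact hxy
    have h1 : A ⊂ U := ⟨filter_subset _ _, fun hs => hbA (hs b.2)⟩
    have h2 : U \ A ⊂ U := ⟨sdiff_subset, fun hs => (mem_sdiff.1 (hs a.2)).2 haA⟩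
    have h3 : ep G U ≤ ep G A + ep G (U \ A) := by
      unfold ep
      refine le_trans (card_le_card ?_) (card_union_le _ _)
      intro p hp
      rw [mem_filter, mem_product] at hp
      rw [mem_union, mem_filter, mem_filter, mem_product, mem_product]
      by_cases h5 : p.1 ∈ A
      · by_cases h6 : p.2 ∈ A
        · exact Or.inl ⟨⟨h5, h6⟩, hp.2⟩
        · exact absurd hp.2 (hno _ h5 _ (mem_sdiff.2 ⟨hp.1.2, h6⟩))
      · by_cases h6 : p.2 ∈ A
        · exact absurd hp.2.symm (hno _ h6 _ (mem_sdiff.2 ⟨hp.1.1, h5⟩))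
        · exact Or.inr ⟨⟨mem_sdiff.2 ⟨hp.1.1, h5⟩, mem_sdiff.2 ⟨hp.1.2, h6⟩⟩, hp.2⟩
    have h4 := hmin A h1
    have h5 := hmin (U \ A) h2
    have h6 : (U \ A).card + A.card = U.card := card_sdiff_add_card_eq_card h1.1
    have h7 : j * U.card = j * (U \ A).card + j * A.card := by rw [← h6]; ring
    omega
  · obtain ⟨x, hx⟩ := hne
    exact ⟨⟨x, hx⟩⟩

end Pool.Agent.K4H88.SP
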