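import Mathlib
import Pool.Agent.K4H88.SP.Defs
import Pool.Agent.R34.Ident3

/-!
# Clique minors in strong products of graphs with large connected sets
-/

set_option autoImplicit false

namespace Pool.Agent.K4H88.SP

open SimpleGraph Finset Classical Pool.Agent.TH507.Host

/-- a connected set contains connected sets of all smaller orders -/
theorem conn_shrink {V : Type} [Fintype V] {G : SimpleGraph V} {M : ℕ} (hM : 1 ≤ M) :
    ∀ (n : ℕ) (U : Finset V), U.card = n → M ≤ n → (G.induce (U : Set V)).Connected →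
    ∃ U' : Finset V, U'.card = M ∧ (G.induce (U' : Set V)).Connected := by
  intro n
  induction n using Nat.strong_induction_on with
  | _ n ih =>
    intro U hU hMn hc
    rcases Nat.lt_or_ge M n with h | h
    · have hnt : Nontrivial (U : Set V) := by
        have h1 : 1 < Fintype.card U := by
          rw [Fintype.card_coe]
          omega
        exact Fintype.one_lt_card_iff_nontrivial.1 h1
      obtain ⟨v, hv⟩ := hc.exists_connected_induce_compl_singleton_of_finite_nontrivial
      have hv2 : v.1 ∈ U := v.2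
      have hcard : (U.erase v.1).card = n - 1 := by rw [card_erase_of_mem hv2, hU]
      refine ih (n - 1) (by omega) (U.erase v.1) hcard (by omega) ?_
      have e : (G.induce (U : Set V)).induce {v}ᶜ ≃g
          G.induce ((U.erase v.1 : Finset V) : Set V) :=
        { toFun := fun x => ⟨x.1.1, by
            have h1 : x.1 ≠ v := x.2
            rw [coe_erase]
            exact ⟨x.1.2, fun h2 => h1 (Subtype.ext h2)⟩⟩
          invFun := fun x => ⟨⟨x.1, (mem_erase.1 x.2).2⟩, fun h2 =>
            (mem_erase.1 x.2).1 (congrArg Subtype.val h2)⟩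
          left_inv := fun x => rfl
          right_inv := fun x => rfl
          map_rel_iff' := Iff.rfl }
      exact e.connected_iff.1 hv
    · have : n = M := by omega
      exact ⟨U, by omega, hc⟩

/-- **rows and columns** -/
theorem rows_cols {α V W Z : Type} (X : SimpleGraph V) (Y : SimpleGraph W) (K : SimpleGraph Z)
    (f : α → V) (g : α → W) (hf : Function.Injective f) (hg : Function.Injective g)
    (A : Set V) (B : Set W) (hA : (X.induce A).Connected) (hB : (Y.induce B).Connected)
    (hfA : ∀ s, f s ∈ A) (hgB : ∀ s, g s ∈ B) {a b : Z} (hab : K.Adj a b) :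
    IsMinor (⊤ : SimpleGraph α) (strong X (strong Y K)) := by
  have hyz : ∀ (s : α), ((strong Y K).induce
      {y : W × Z | y.1 ∈ B ∧ y.2 ∈ ({z | z = a} : Set Z)}).Connected :=
    fun s => conn_prod Y K B _ hB (conn_of_singleton K a)
  have hyz' : ∀ (s : α), ((strong Y K).induce
      {y : W × Z | y.1 ∈ ({w | w = g s} : Set W) ∧ y.2 ∈ ({z | z = b} : Set Z)}).Connected :=
    fun s => conn_prod Y K _ _ (conn_of_singleton Y (g s)) (conn_of_singleton K b)
  have h1 : ∀ s, ((strong X (strong Y K)).induce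
      {x : V × W × Z | x.1 ∈ ({v | v = f s} : Set V) ∧
        x.2 ∈ {y : W × Z | y.1 ∈ B ∧ y.2 ∈ ({z | z = a} : Set Z)}}).Connected :=
    fun s => conn_prod X (strong Y K) _ _ (conn_of_singleton X (f s)) (hyz s)
  have h2 : ∀ s, ((strong X (strong Y K)).induce
      {x : V × W × Z | x.1 ∈ A ∧
        x.2 ∈ {y : W × Z | y.1 ∈ ({w | w = g s} : Set W) ∧ y.2 ∈ ({z | z = b} : Set Z)}}).Connected :=
    fun s => conn_prod X (strong Y K) _ _ hA (hyz' s)
  have hne : a ≠ b := hab.ne
  refine ⟨fun s => {x : V × W × Z | x.1 ∈ ({v | v = f s} : Set V) ∧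
        x.2 ∈ {y : W × Z | y.1 ∈ B ∧ y.2 ∈ ({z | z = a} : Set Z)}} ∪
      {x : V × W × Z | x.1 ∈ A ∧
        x.2 ∈ {y : W × Z | y.1 ∈ ({w | w = g s} : Set W) ∧ y.2 ∈ ({z | z = b} : Set Z)}},
    fun s => connected_induce_union (v := (f s, g s, a))
    (w := (f s, g s, b)) (h1 s).preconnected (h2 s).preconnected ⟨rfl, hgB s, rfl⟩
    ⟨hfA s, rfl, rfl⟩ ⟨fun h => hne ?_, Or.inl rfl, Or.inr ⟨fun h => hne ?_, Or.inl rfl,
      Or.inr hab⟩⟩, ?_, ?_⟩
  · exact congrArg (fun x : V × W × Z => x.2.2) h
  · exact congrArg (fun x : W × Z => x.2) h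
  · intro s t hst
    rw [Set.disjoint_left]
    rintro ⟨x, y, z⟩ h3 h4
    rcases h3 with ⟨h5, _, h6⟩ | ⟨_, h5, h6⟩
    · rcases h4 with ⟨h7, _, h8⟩ | ⟨_, h7, h8⟩
      · exact hst (hf (Eq.trans (Eq.symm h5) h7))
      · exact hne (Eq.trans (Eq.symm h6) h8)
    · rcases h4 with ⟨h7, _, h8⟩ | ⟨_, h7, h8⟩
      · exact hne (Eq.trans (Eq.symm h8) h6)
      · exact hst (hg (Eq.trans (Eq.symm h5) h7))
  · intro s t hst
    refine ⟨(f s, g t, a), Or.inl ⟨rfl, hgB t, rfl⟩, (f s, g t, b), Or.inr ⟨hfA s, rfl, rfl⟩,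
      fun h => hne ?_, Or.inl rfl, Or.inr ⟨fun h => hne ?_, Or.inl rfl, Or.inr hab⟩⟩
    · exact congrArg (fun x : V × W × Z => x.2.2) h
    · exact congrArg (fun x : W × Z => x.2) h

theorem minor_refl {V : Type} (G : SimpleGraph V) : IsMinor G G :=
  minor_inj id Function.injective_id fun _ _ h => h

/-- strong products of `r ≥ 2 q + 1` graphs with connected sets of order `M` -/
theorem large_pi {ι : Type} [Fintype ι] {V : ι → Type} [∀ i, Fintype (V i)]
    (G : ∀ i, SimpleGraph (V i)) {M q : ℕ} (hM : 2 ≤ M)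
    (hG : ∀ i, ∃ U : Finset (V i), U.card = M ∧ ((G i).induce (U : Set (V i))).Connected)
    (hq : 2 * q + 1 ≤ Fintype.card ι) :
    IsMinor (⊤ : SimpleGraph (Fin q → Fin M)) (strongPi G) := by
  obtain ⟨e⟩ : Nonempty (Fin q ⊕ (Fin q ⊕ Fin (Fintype.card ι - 2 * q)) ≃ ι) := by
    rw [← Fintype.card_eq]
    simp only [Fintype.card_sum, Fintype.card_fin]
    omega
  choose U hU1 hU2 using hG
  let φ : ∀ i, Fin M → V i := fun i s => ((U i).equivFinOfCardEq (hU1 i)).symm s
  have hφ : ∀ i, Function.Injective (φ i) := fun i a b hab =>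
    ((U i).equivFinOfCardEq (hU1 i)).symm.injective (Subtype.ext hab)
  have hφU : ∀ i s, φ i s ∈ (U i : Set (V i)) := fun i s =>
    (((U i).equivFinOfCardEq (hU1 i)).symm s).2
  -- every graph has an edge
  have hedge : ∀ i, ∃ u v, (G i).Adj u v := by
    intro i
    have hne : (⟨φ i ⟨0, by omega⟩, hφU i _⟩ : (U i : Set (V i))) ≠
        ⟨φ i ⟨1, by omega⟩, hφU i _⟩ := by
      intro h
      have h1 := hφ i (congrArg Subtype.val h)
      have h2 := congrArg Fin.val h1
      simp at h2
    obtain ⟨w, hw⟩ := ((hU2 i).preconnected _ _).nonempty_neighborSet_left hne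
    exact ⟨_, _, hw⟩
  choose u v huv using hedge
  set X := strongPi (fun i : Fin q => G (e (Sum.inl i))) with hX
  set Y := strongPi (fun i : Fin q => G (e (Sum.inr (Sum.inl i)))) with hY
  set K := strongPi (fun i : Fin (Fintype.card ι - 2 * q) => G (e (Sum.inr (Sum.inr i)))) with hK
  have h1 : IsMinor (⊤ : SimpleGraph (Fin q → Fin M)) (strong X (strong Y K)) := by
    have hK : K.Adj (fun i => u (e (Sum.inr (Sum.inr i)))) (fun i => v (e (Sum.inr (Sum.inr i)))) := by
      refine ⟨fun h => ?_, fun i => Or.inr (huv _)⟩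
      have h2 := congrFun h ⟨0, by omega⟩
      exact (huv _).ne h2
    refine rows_cols X Y K (fun s i => φ _ (s i)) (fun s i => φ _ (s i)) ?_ ?_ _ _
      (conn_pi (fun i : Fin q => G (e (Sum.inl i))) (fun i => (U (e (Sum.inl i)) : Set _))
        fun i => hU2 _)
      (conn_pi (fun i : Fin q => G (e (Sum.inr (Sum.inl i))))
        (fun i => (U (e (Sum.inr (Sum.inl i))) : Set _)) fun i => hU2 _)
      (fun s i => hφU _ _) (fun s i => hφU _ _) hK
    · intro s t hst
      funext i
      exact hφ _ (congrFun hst i)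
    · intro s t hst
      funext i
      exact hφ _ (congrFun hst i)
  have h2 : IsMinor (strong X (strong Y K))
      (strong X (strongPi (fun i : Fin q ⊕ Fin (Fintype.card ι - 2 * q) => G (e (Sum.inr i))))) :=
    minor_prod (minor_refl X) (minor_iso
      (sumIso (fun i : Fin q ⊕ Fin (Fintype.card ι - 2 * q) => G (e (Sum.inr i)))).symm)
  have h3 : IsMinor
      (strong X (strongPi (fun i : Fin q ⊕ Fin (Fintype.card ι - 2 * q) => G (e (Sum.inr i)))))
      (strongPi (fun i => G (e i))) := minor_iso (sumIso (fun i => G (e i))).symm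
  exact Pool.Agent.R34.Ident.minor_trans (Pool.Agent.R34.Ident.minor_trans
    (Pool.Agent.R34.Ident.minor_trans h1 h2) h3) (minor_iso (reindex e G))

end Pool.Agent.K4H88.SP
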