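import Mathlib
import Pool.Agent.K4H88.SP.Crit
import Pool.Agent.K4H88.SP.Large

/-!
# Strong products of many imperfect graphs: the density argument
-/

set_option autoImplicit false

namespace Pool.Agent.K4H88.SP

open SimpleGraph Finset Classical Pool.Agent.TH507.Host

/-- the clique number is smaller than the chromatic number -/
def Gap {V : Type} (G : SimpleGraph V) : Prop := ∃ k : ℕ, G.CliqueFree (k + 1) ∧ ¬ G.Colorable k

/-- all connected vertex sets have fewer than `M` elements -/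
def SmallConn {V : Type} [Fintype V] (G : SimpleGraph V) (M : ℕ) : Prop :=
  ∀ U : Finset V, (G.induce (U : Set V)).Connected → U.card < M

/-- the chromatic number -/
theorem exists_chrom {V : Type} {G : SimpleGraph V} {K : ℕ} (hK : G.Colorable K) :
    ∃ n, n ≤ K ∧ G.Colorable n ∧ ∀ k, ¬ G.Colorable k ↔ k < n := by
  have hex : ∃ n, G.Colorable n := ⟨K, hK⟩
  refine ⟨Nat.find hex, Nat.find_min' hex hK, Nat.find_spec hex, fun k => ⟨fun h => ?_,
    fun h => Nat.find_min hex h⟩⟩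
  by_contra hcon
  push Not at hcon
  exact h ((Nat.find_spec hex).mono hcon)

theorem exists_crit_set {V : Type} [Fintype V] {G : SimpleGraph V} {j : ℕ}
    (h : ¬ G.Colorable j) : ∃ H : Finset V, H.Nonempty ∧
      (j + 1) * H.card ≤ cnt (G.induce (H : Set V)) := by
  obtain ⟨H, -, hH⟩ := crit_exists (univ : Finset V) (fun hc => h (colOn_univ hc))
  refine ⟨H, crit_nonempty hH, ?_⟩
  rw [cnt_induce]
  have := crit_ep hH
  nlinarith

/-- one factor -/
theorem factor {V : Type} [Fintype V] {G : SimpleGraph V} {K M : ℕ} (hM : 1 ≤ M)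
    (hK : G.Colorable K) (hgap : Gap G) (hsmall : SmallConn G M) :
    ∃ (d ρ : ℝ) (κ T : ℕ) (H : Finset V), H.Nonempty ∧
      d * H.card ≤ (cnt (G.induce (H : Set V)) : ℝ) ∧ PC G κ T ρ ∧ 1 / 2 ≤ ρ ∧ ρ ≤ 1 ∧ 1 ≤ T ∧
      T ≤ K + 2 ∧ 0 ≤ d ∧ (1 + 1 / ((M : ℝ) * (K : ℝ) ^ 2)) * κ ≤ d * ρ := by
  obtain ⟨k, hk1, hk2⟩ := hgap
  obtain ⟨n, hn1, hn2, hn3⟩ := exists_chrom hK
  have hkn : k < n := (hn3 k).1 hk2
  obtain ⟨j, rfl⟩ : ∃ j, n = j + 1 := ⟨n - 1, by omega⟩
  have hfree : G.CliqueFree (j + 1) := hk1.mono (by omega)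
  have hcol : ¬ G.Colorable j := (hn3 j).2 (by omega)
  have hMR : (1 : ℝ) ≤ M := by exact_mod_cast hM
  have hjK : ((j : ℝ) + 1) ≤ K := by exact_mod_cast hn1
  have hj0 : (0 : ℝ) ≤ j := Nat.cast_nonneg j
  have hK1 : (1 : ℝ) ≤ K := by linarith
  by_cases hd : ∃ U : Finset V, j * U.card < ep G U
  · obtain ⟨U, hU1, hU2, hU3⟩ := dense_small hsmall hd
    refine ⟨j + 1 + 1 / M, 1, j + 1, 1, U, hU1, ?_, pc_of_colorable hn2, by norm_num, le_rfl,
      le_rfl, by omega, by positivity, ?_⟩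
    · rw [cnt_induce]
      have h1 : ((j * U.card : ℕ) : ℝ) + 1 ≤ ep G U := by exact_mod_cast hU3
      push_cast at h1 ⊢
      have h2 : 1 / (M : ℝ) * U.card ≤ 1 := by
        rw [one_div, inv_mul_le_iff₀ (by linarith), mul_one]
        exact_mod_cast hU2.le
      nlinarith
    · push_cast
      rw [mul_one, add_mul, one_mul]
      have h1 : 1 / ((M : ℝ) * (K : ℝ) ^ 2) * ((j : ℝ) + 1) ≤ 1 / M := by
        rw [div_mul_eq_mul_div, one_mul, div_le_div_iff₀ (by positivity) (by linarith), one_mul]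
        have h2 : ((j : ℝ) + 1) ≤ (K : ℝ) ^ 2 := by nlinarith
        nlinarith
      linarith
  · push Not at hd
    obtain ⟨H, hH1, hH2⟩ := exists_crit_set hcol
    have hj2 : (0 : ℝ) < (j : ℝ) + 2 := by linarith
    refine ⟨j + 1, (j + 1) / (j + 2), j, j + 3, H, hH1, ?_, dich hfree hcol hd, ?_, ?_, by omega,
      by omega, by positivity, ?_⟩
    · exact_mod_cast hH2
    · rw [div_le_div_iff₀ (by norm_num) hj2]
      linarith
    · rw [div_le_one hj2]
      linarith
    · have h1 : ((j : ℝ) + 1) * ((j + 1) / (j + 2)) = j + 1 / (j + 2) := by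
        field_simp
        ring
      rw [h1, add_mul, one_mul]
      have h2 : 1 / ((M : ℝ) * (K : ℝ) ^ 2) * (j : ℝ) ≤ 1 / (j + 2) := by
        rw [div_mul_eq_mul_div, one_mul, div_le_div_iff₀ (by positivity) hj2, one_mul]
        have h3 : (j : ℝ) * (j + 2) ≤ (K : ℝ) ^ 2 := by nlinarith
        have h4 : (K : ℝ) ^ 2 ≤ M * (K : ℝ) ^ 2 := by nlinarith [sq_nonneg (K : ℝ)]
        linarith
      linarith

/-- many factors -/
theorem factors {ι : Type} [Fintype ι] {V : ι → Type} [∀ i, Fintype (V i)]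
    (G : ∀ i, SimpleGraph (V i)) {K M : ℕ} (hM : 1 ≤ M)
    (hK : ∀ i, (G i).Colorable K) (hgap : ∀ i, Gap (G i)) (hsmall : ∀ i, SmallConn (G i) M) :
    ∃ (d : ℝ) (a : ℕ) (H : ∀ i, Finset (V i)), 0 ≤ d ∧ (∀ i, (H i).Nonempty) ∧
      d * ∏ i, ((H i).card : ℝ) ≤
        (cnt (strongPi fun i => (G i).induce ((H i : Finset (V i)) : Set (V i))) : ℝ) ∧
      (strongPi G).Colorable a ∧
      (1 + 1 / ((M : ℝ) * (K : ℝ) ^ 2)) ^ Fintype.card ι * a ≤
        (Fintype.card ι * Real.log (K + 2) + 1) * d := by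
  choose d ρ κ T H h1 h2 h3 h4 h5 h6 h7 h8 h9 using fun i =>
    factor hM (hK i) (hgap i) (hsmall i)
  set P : ℝ := ∏ i, ρ i with hP
  set Θ : ℕ := ∏ i, T i with hΘ
  have hP0 : 0 < P := prod_pos fun i _ => by have := h4 i; linarith
  have hP1 : P ≤ 1 := prod_le_one (fun i _ => by have := h4 i; linarith) fun i _ => h5 i
  have hΘ1 : 1 ≤ Θ := Nat.one_le_iff_ne_zero.2 (prod_ne_zero_iff.2 fun i _ => by
    have := h6 i; omega)
  have hΘR : (1 : ℝ) ≤ Θ := by exact_mod_cast hΘ1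
  have hlogΘ : 0 ≤ Real.log Θ := Real.log_nonneg hΘR
  set m : ℕ := ⌊Real.log Θ / P⌋₊ + 1 with hm
  have hm1 : Real.log Θ / P < m := by
    rw [hm]
    push_cast
    exact Nat.lt_floor_add_one _
  have hm2 : (m : ℝ) * P ≤ Real.log Θ + 1 := by
    have h10 : (m : ℝ) ≤ Real.log Θ / P + 1 := by
      rw [hm]
      push_cast
      have := Nat.floor_le (show 0 ≤ Real.log Θ / P by positivity)
      linarith
    calc (m : ℝ) * P ≤ (Real.log Θ / P + 1) * P := by gcongr
      _ = Real.log Θ + P := by field_simp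
      _ ≤ _ := by linarith
  have hcov : (Θ : ℝ) * (1 - P) ^ m < 1 := by
    have e1 : (1 - P) ^ m ≤ Real.exp (-P) ^ m := by
      apply pow_le_pow_left₀ (by linarith)
      have := Real.add_one_le_exp (-P)
      linarith
    have e2 : Real.exp (-P) ^ m = Real.exp (-(m * P)) := by
      rw [← Real.exp_nat_mul]
      congr 1
      ring
    have e3 : Real.log Θ < m * P := by
      rwa [div_lt_iff₀ hP0] at hm1
    calc (Θ : ℝ) * (1 - P) ^ m ≤ Θ * Real.exp (-(m * P)) := by
          rw [← e2]; gcongr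
      _ < Θ * Real.exp (-Real.log Θ) := by
          apply mul_lt_mul_of_pos_left _ (by linarith)
          exact Real.exp_lt_exp.2 (by linarith)
      _ = 1 := by
          rw [Real.exp_neg, Real.exp_log (by linarith)]
          exact mul_inv_cancel₀ (by linarith)
  have hpc := pc_pi (fun i => by have := h4 i; linarith) h3
  have hcol := pc_color hpc hP1 hcov
  refine ⟨∏ i, d i, m * ∏ i, κ i, H, prod_nonneg fun i _ => h8 i, h1, ?_, hcol, ?_⟩
  · rw [cnt_pi, ← prod_mul_distrib]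
    push_cast
    exact prod_le_prod (fun i _ => mul_nonneg (h8 i) (Nat.cast_nonneg _)) fun i _ => h2 i
  · have hlog : Real.log Θ ≤ Fintype.card ι * Real.log (K + 2) := by
      have e1 : (Θ : ℝ) ≤ ((K : ℝ) + 2) ^ Fintype.card ι := by
        have e2 : Θ ≤ (K + 2) ^ Fintype.card ι := by
          rw [hΘ, ← Finset.card_univ]
          exact prod_le_pow_card _ _ _ fun i _ => h7 i
        exact_mod_cast e2
      calc Real.log Θ ≤ Real.log (((K : ℝ) + 2) ^ Fintype.card ι) :=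
            Real.log_le_log (by linarith) e1
        _ = _ := by rw [Real.log_pow]
    have hprod : (1 + 1 / ((M : ℝ) * (K : ℝ) ^ 2)) ^ Fintype.card ι * (∏ i, (κ i : ℝ)) ≤
        (∏ i, d i) * P := by
      rw [hP, ← prod_mul_distrib]
      have e1 : (1 + 1 / ((M : ℝ) * (K : ℝ) ^ 2)) ^ Fintype.card ι =
          ∏ _i : ι, (1 + 1 / ((M : ℝ) * (K : ℝ) ^ 2)) := by
        rw [prod_const, Finset.card_univ]
      rw [e1, ← prod_mul_distrib]
      exact prod_le_prod (fun i _ => by positivity) fun i _ => h9 i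
    have hd0 : 0 ≤ ∏ i, d i := prod_nonneg fun i _ => h8 i
    rw [← mul_le_mul_iff_left₀ hP0]
    push_cast
    calc (1 + 1 / ((M : ℝ) * (K : ℝ) ^ 2)) ^ Fintype.card ι * (m * ∏ i, (κ i : ℝ)) * P
        = ((1 + 1 / ((M : ℝ) * (K : ℝ) ^ 2)) ^ Fintype.card ι * ∏ i, (κ i : ℝ)) * (m * P) := by
          ring
      _ ≤ ((∏ i, d i) * P) * (Real.log Θ + 1) := by gcongr
      _ ≤ ((∏ i, d i) * P) * (Fintype.card ι * Real.log (K + 2) + 1) := by gcongr
      _ = _ := by ring

end Pool.Agent.K4H88.SP
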