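import Mathlib
import Pool.Agent.K4H88.SP.Core

/-!
# Hadwiger's conjecture for strong products of many imperfect graphs
-/

set_option autoImplicit false

namespace Pool.Agent.K4H88.SP

open SimpleGraph Finset Classical Pool.Agent.TH507.Host Pool.Agent.R34.Ident

/-- clique minors of `N` times the chromatic number -/
def Room {V : Type} (N : ℕ) (G : SimpleGraph V) : Prop :=
  ∀ k : ℕ, ¬ G.Colorable k → IsMinor (⊤ : SimpleGraph (Fin (N * (k + 1)))) G

theorem top_minor {α β : Type} [Fintype α] [Fintype β] (h : Fintype.card α ≤ Fintype.card β) :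
    IsMinor (⊤ : SimpleGraph α) (⊤ : SimpleGraph β) := by
  obtain ⟨f⟩ := Function.Embedding.nonempty_of_card_le h
  exact minor_inj f f.injective fun u v huv he => huv (f.injective he)

theorem room_mono {V : Type} {N N' : ℕ} {G : SimpleGraph V} (h : N' ≤ N) (hG : Room N G) :
    Room N' G := fun k hk => minor_trans (top_minor (by
      simp only [Fintype.card_fin]
      exact Nat.mul_le_mul_right _ h)) (hG k hk)

theorem room_iso {V W : Type} {N : ℕ} {G : SimpleGraph V} {H : SimpleGraph W} (e : G ≃g H)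
    (hG : Room N G) : Room N H := by
  intro k hk
  refine minor_trans (hG k fun h => hk ?_) (minor_iso e)
  exact h.of_hom e.symm.toHom

theorem strong_top {α β : Type} : strong (⊤ : SimpleGraph α) (⊤ : SimpleGraph β) = ⊤ := by
  ext x y
  constructor
  · intro h
    exact h.1
  · intro h
    refine ⟨h, ?_, ?_⟩
    · by_cases h1 : x.1 = y.1
      · exact Or.inl h1
      · exact Or.inr h1
    · by_cases h1 : x.2 = y.2
      · exact Or.inl h1
      · exact Or.inr h1

theorem strongPi_top {ι : Type} {α : ι → Type} :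
    strongPi (fun i => (⊤ : SimpleGraph (α i))) = ⊤ := by
  ext x y
  constructor
  · intro h
    exact h.1
  · intro h
    refine ⟨h, fun i => ?_⟩
    by_cases h1 : x i = y i
    · exact Or.inl h1
    · exact Or.inr h1

theorem minor_prod_top {V W : Type} {G : SimpleGraph V} {H : SimpleGraph W} {a b c : ℕ}
    (hG : IsMinor (⊤ : SimpleGraph (Fin a)) G) (hH : IsMinor (⊤ : SimpleGraph (Fin b)) H)
    (hc : c ≤ a * b) : IsMinor (⊤ : SimpleGraph (Fin c)) (strong G H) := by
  have h := minor_prod hG hH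
  rw [strong_top] at h
  exact minor_trans (top_minor (by simpa using hc)) h

theorem minor_pi_top {ι : Type} [Fintype ι] {V : ι → Type} {G : ∀ i, SimpleGraph (V i)}
    {a : ι → ℕ} {c : ℕ} (hG : ∀ i, IsMinor (⊤ : SimpleGraph (Fin (a i))) (G i))
    (hc : c ≤ ∏ i, a i) : IsMinor (⊤ : SimpleGraph (Fin c)) (strongPi G) := by
  have h := minor_pi hG
  rw [strongPi_top] at h
  exact minor_trans (top_minor (by simpa using hc)) h

theorem room_prod {V W : Type} {G : SimpleGraph V} {H : SimpleGraph W} {N N' a b : ℕ}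
    (ha : G.Colorable a) (hb : H.Colorable b) (hG : Room N G) (hH : Room N' H) :
    Room (N * N') (strong G H) := by
  intro k hk
  obtain ⟨n, -, hn1, hn2⟩ := exists_chrom ha
  obtain ⟨m, -, hm1, hm2⟩ := exists_chrom hb
  have hk1 : k < n * m := by
    by_contra hcon
    push Not at hcon
    exact hk ((colorable_prod hn1 hm1).mono hcon)
  have hn0 : 0 < n := Nat.pos_of_ne_zero fun h => by simp [h] at hk1
  have hm0 : 0 < m := Nat.pos_of_ne_zero fun h => by simp [h] at hk1
  have h1 := hG (n - 1) ((hn2 (n - 1)).2 (by omega))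
  have h2 := hH (m - 1) ((hm2 (m - 1)).2 (by omega))
  rw [Nat.sub_add_cancel hn0] at h1
  rw [Nat.sub_add_cancel hm0] at h2
  refine minor_prod_top h1 h2 ?_
  calc N * N' * (k + 1) ≤ N * N' * (n * m) := Nat.mul_le_mul_left _ hk1
    _ = N * n * (N' * m) := by ring

theorem room_pi {ι : Type} [Fintype ι] {V : ι → Type} [∀ i, Fintype (V i)]
    {G : ∀ i, SimpleGraph (V i)} (hG : ∀ i, Room 1 (G i)) : Room 1 (strongPi G) := by
  intro k hk
  have hfin : ∀ i, ∃ n, (G i).Colorable n ∧ ∀ k, ¬ (G i).Colorable k ↔ k < n := by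
    intro i
    obtain ⟨n, -, h1, h2⟩ := exists_chrom (G i).colorable_of_fintype
    exact ⟨n, h1, h2⟩
  choose n hn1 hn2 using hfin
  have hk1 : k < ∏ i, n i := by
    by_contra hcon
    push Not at hcon
    exact hk ((colorable_pi hn1).mono hcon)
  have hn0 : ∀ i, 0 < n i := fun i => Nat.pos_of_ne_zero fun h => by
    rw [prod_eq_zero (mem_univ i) h] at hk1
    omega
  have h1 : ∀ i, IsMinor (⊤ : SimpleGraph (Fin (n i))) (G i) := by
    intro i
    have := hG i (n i - 1) ((hn2 i (n i - 1)).2 (by have := hn0 i; omega))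
    rwa [Nat.sub_add_cancel (hn0 i), one_mul] at this
  exact minor_pi_top h1 (by omega)

/-- commutativity -/
def commIso {V W : Type} (G : SimpleGraph V) (H : SimpleGraph W) :
    strong G H ≃g strong H G where
  toEquiv := Equiv.prodComm V W
  map_rel_iff' := by
    intro x y
    constructor
    · rintro ⟨h1, h2, h3⟩
      exact ⟨fun h => h1 (by rw [h]), h3, h2⟩
    · rintro ⟨h1, h2, h3⟩
      exact ⟨fun h => h1 ((Equiv.prodComm V W).injective h), h3, h2⟩

/-- the one-vertex factor -/
def unitIso {W : Type} (H : SimpleGraph W) : strong (⊥ : SimpleGraph Unit) H ≃g H where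
  toEquiv := Equiv.punitProd W
  map_rel_iff' := by
    intro x y
    constructor
    · intro h
      exact ⟨fun h' => h.ne (by rw [h']), Or.inl rfl, Or.inr h⟩
    · rintro ⟨h1, h2, h3⟩
      rcases h3 with h3 | h3
      · exact absurd (Prod.ext (Subsingleton.elim _ _) h3 : x = y) h1
      · exact h3

/-- splitting of the index set -/
noncomputable def splitIso {ι : Type} (p : ι → Prop) {V : ι → Type} (G : ∀ i, SimpleGraph (V i)) :
    strong (strongPi fun i : {i // p i} => G i.1) (strongPi fun i : {i // ¬ p i} => G i.1) ≃g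
      strongPi G :=
  (sumIso (fun k => G (Equiv.sumCompl p k))).symm.trans (reindex (Equiv.sumCompl p) G)

/-- **the density argument with an arbitrary factor** -/
theorem core {ι : Type} [Fintype ι] {V : ι → Type} [∀ i, Fintype (V i)]
    (G : ∀ i, SimpleGraph (V i)) {K M : ℕ} (hM : 1 ≤ M)
    (hK : ∀ i, (G i).Colorable K) (hgap : ∀ i, Gap (G i)) (hsmall : ∀ i, SmallConn (G i) M)
    {V₀ : Type} [Fintype V₀] (G₀ : SimpleGraph V₀) {q : ℕ} (hq : G₀.Colorable q) {N : ℕ}
    (hN : 601 * (4 + (Nat.log 2 (N * (q * K ^ Fintype.card ι)) : ℝ)) * N *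
      (Fintype.card ι * Real.log (K + 2) + 1) ≤
        (1 + 1 / ((M : ℝ) * (K : ℝ) ^ 2)) ^ Fintype.card ι) :
    Room N (strong G₀ (strongPi G)) := by
  intro k hk
  rcases Nat.eq_zero_or_pos N with hN0 | hN0
  · subst hN0
    rw [zero_mul]
    exact ⟨fun i => i.elim0, fun i => i.elim0, fun i => i.elim0, fun i => i.elim0⟩
  obtain ⟨n, hn0, hn1, hn2⟩ := exists_chrom hq
  have hpiK : (strongPi G).Colorable (K ^ Fintype.card ι) := by
    have := colorable_pi hK
    rwa [prod_const, Finset.card_univ] at this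
  obtain ⟨b, hb0, hb1, hb2⟩ := exists_chrom hpiK
  obtain ⟨d, a, H, hd0, hH1, hH2, hcol, hineq⟩ := factors G hM hK hgap hsmall
  have hba : b ≤ a := by
    by_contra hcon
    push Not at hcon
    exact (hb2 a).2 hcon hcol
  have hk1 : k < n * b := by
    by_contra hcon
    push Not at hcon
    exact hk ((colorable_prod hn1 hb1).mono hcon)
  have hn : 0 < n := Nat.pos_of_ne_zero fun h => by simp [h] at hk1
  have hb : 0 < b := Nat.pos_of_ne_zero fun h => by simp [h] at hk1
  obtain ⟨H₀, h01, h02⟩ := exists_crit_set ((hn2 (n - 1)).2 (by omega))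
  rw [Nat.sub_add_cancel hn] at h02
  set t : ℕ := N * (n * b) with ht
  have ht1 : 1 ≤ t := by
    rw [ht]
    exact Nat.succ_le_of_lt (by positivity)
  have htle : N * (k + 1) ≤ t := Nat.mul_le_mul_left _ hk1
  have hlog : Nat.log 2 t ≤ Nat.log 2 (N * (q * K ^ Fintype.card ι)) := by
    apply Nat.log_mono_right
    exact Nat.mul_le_mul_left _ (Nat.mul_le_mul hn0 hb0)
  refine minor_trans (top_minor (β := Fin t) (by simpa using htle)) ?_
  have hmin : IsMinor (strong (G₀.induce (H₀ : Set V₀))
      (strongPi fun i => (G i).induce ((H i : Finset (V i)) : Set (V i))))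
      (strong G₀ (strongPi G)) :=
    minor_prod (minor_induce _ _) (minor_pi fun i => minor_induce _ _)
  refine minor_trans (kt _ t ?_ ?_) hmin
  · rw [Fintype.card_pos_iff]
    obtain ⟨x, hx⟩ := h01
    exact ⟨(⟨x, hx⟩, fun i => ⟨(hH1 i).choose, (hH1 i).choose_spec⟩)⟩
  · rw [cnt_prod]
    have hcard : Fintype.card (Prod (↥(H₀ : Set V₀)) (∀ i, ↥((H i : Finset (V i)) : Set (V i)))) =
        H₀.card * ∏ i, (H i).card := by
      rw [Fintype.card_prod, Fintype.card_pi]
      simp
    rw [hcard]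
    have key : ((600 * (t * (4 + Nat.log 2 t)) + 1 : ℕ) : ℝ) ≤ n * d := by
      set L : ℝ := (Nat.log 2 (N * (q * K ^ Fintype.card ι)) : ℝ) with hL
      have hL0 : (Nat.log 2 t : ℝ) ≤ L := by
        rw [hL]
        exact_mod_cast hlog
      set E : ℝ := Fintype.card ι * Real.log (K + 2) + 1 with hE
      have hE0 : 0 < E := by
        have : 0 ≤ Real.log ((K : ℝ) + 2) := Real.log_nonneg (by
          have : (0 : ℝ) ≤ K := Nat.cast_nonneg K
          linarith)
        positivity
      have htR : (1 : ℝ) ≤ t := by exact_mod_cast ht1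
      have hbaR : (b : ℝ) ≤ a := by exact_mod_cast hba
      have hL00 : (0 : ℝ) ≤ Nat.log 2 t := Nat.cast_nonneg _
      have e1 : ((600 * (t * (4 + Nat.log 2 t)) + 1 : ℕ) : ℝ) ≤ 601 * (4 + L) * t := by
        push_cast
        have h1 : (t : ℝ) * (4 + Nat.log 2 t) ≤ t * (4 + L) := by gcongr
        have h2 : (1 : ℝ) ≤ t * (4 + L) := by nlinarith
        linarith
      refine e1.trans ?_
      rw [← mul_le_mul_iff_left₀ hE0]
      calc 601 * (4 + L) * t * E = (601 * (4 + L) * N * E) * (n * b) := by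
            rw [ht]; push_cast; ring
        _ ≤ (1 + 1 / ((M : ℝ) * (K : ℝ) ^ 2)) ^ Fintype.card ι * (n * b) := by gcongr
        _ = n * ((1 + 1 / ((M : ℝ) * (K : ℝ) ^ 2)) ^ Fintype.card ι * b) := by ring
        _ ≤ n * ((1 + 1 / ((M : ℝ) * (K : ℝ) ^ 2)) ^ Fintype.card ι * a) := by gcongr
        _ ≤ n * (E * d) := by gcongr
        _ = n * d * E := by ring
    have h02R : (n : ℝ) * H₀.card ≤ cnt (G₀.induce (H₀ : Set V₀)) := by exact_mod_cast h02
    have : ((600 * (t * (4 + Nat.log 2 t)) + 1 : ℕ) : ℝ) * (H₀.card * ∏ i, ((H i).card : ℝ)) ≤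
        (cnt (G₀.induce (H₀ : Set V₀)) : ℝ) *
          (cnt (strongPi fun i => (G i).induce ((H i : Finset (V i)) : Set (V i))) : ℝ) := by
      calc ((600 * (t * (4 + Nat.log 2 t)) + 1 : ℕ) : ℝ) * (H₀.card * ∏ i, ((H i).card : ℝ))
          ≤ (n * d) * (H₀.card * ∏ i, ((H i).card : ℝ)) := by gcongr
        _ = (n * H₀.card) * (d * ∏ i, ((H i).card : ℝ)) := by ring
        _ ≤ _ := by
            apply mul_le_mul h02R hH2
            · have : 0 ≤ ∏ i, ((H i).card : ℝ) := prod_nonneg fun i _ => Nat.cast_nonneg _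
              positivity
            · exact Nat.cast_nonneg _
    exact_mod_cast this

end Pool.Agent.K4H88.SP
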