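import Mathlib

/-!
# The numerical condition
-/

set_option autoImplicit false

namespace Pool.Agent.K4H88.SP

theorem num (K M : ℕ) (hK : 1 ≤ K) (hM : 1 ≤ M) : ∃ δ C : ℝ, 0 < δ ∧ δ ≤ 1 ∧ 0 < C ∧
    ∀ s q N : ℕ, 1 ≤ q → C * (1 + Real.log (1 + Real.log q)) ≤ s → (N : ℝ) ≤ (1 + δ) ^ s →
      601 * (4 + (Nat.log 2 (N * (q * K ^ s)) : ℝ)) * N * (s * Real.log (K + 2) + 1) ≤
        (1 + 1 / ((M : ℝ) * (K : ℝ) ^ 2)) ^ s := by
  have hKR : (1 : ℝ) ≤ K := by exact_mod_cast hK
  have hMR : (1 : ℝ) ≤ M := by exact_mod_cast hM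
  set δ₀ : ℝ := 1 / ((M : ℝ) * (K : ℝ) ^ 2) with hδ₀
  have hδ₀0 : 0 < δ₀ := by positivity
  have hδ₀1 : δ₀ ≤ 1 := by
    rw [hδ₀, div_le_one (by positivity)]
    nlinarith [sq_nonneg ((K : ℝ) - 1)]
  set δ : ℝ := δ₀ / 7 with hδ
  have hδ0 : 0 < δ := by positivity
  have hδ1 : δ ≤ 1 := by rw [hδ]; linarith
  set l : ℝ := Real.log (1 + δ) with hl
  have hl0 : 0 < l := Real.log_pos (by linarith)
  have hl1 : l ≤ 1 := by
    have := Real.log_le_sub_one_of_pos (show 0 < 1 + δ by linarith)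
    linarith
  set c : ℝ := Real.log ((K : ℝ) + 2) with hc
  have hc0 : 0 < c := Real.log_pos (by linarith)
  set B : ℝ := 601 * (4 + 2 * (1 + K)) * (c + 1) with hB
  have hB0 : 0 < B := by positivity
  refine ⟨δ, 1 + 6 * B / l ^ 3 + 1 / l, hδ0, hδ1, by positivity, ?_⟩
  intro s q N hq hs hN
  have hqR : (1 : ℝ) ≤ q := by exact_mod_cast hq
  have hlq : 0 ≤ Real.log q := Real.log_nonneg hqR
  set y : ℝ := Real.log (1 + Real.log q) with hy
  have hy0 : 0 ≤ y := Real.log_nonneg (by linarith)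
  have h6 : 0 < 6 * B / l ^ 3 := by positivity
  have h7 : 0 < 1 / l := by positivity
  have hs1 : (1 : ℝ) ≤ s := by nlinarith
  have hs2 : 6 * B / l ^ 3 ≤ s := by nlinarith
  have hs3 : 1 / l * y ≤ s := by nlinarith
  have hs0 : (0 : ℝ) < s := by linarith
  have hpow : ∀ n : ℕ, (1 + δ) ^ n = Real.exp (l * n) := by
    intro n
    rw [mul_comm, Real.exp_nat_mul, hl, Real.exp_log (by linarith)]
  have e1 : 1 + Real.log q ≤ Real.exp (l * s) := by
    rw [← Real.log_le_iff_le_exp (by linarith)]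
    rw [div_mul_eq_mul_div, one_mul, div_le_iff₀ hl0] at hs3
    linarith
  have e2 : B * (s : ℝ) ^ 2 ≤ Real.exp (l * s) := by
    have h1 := Real.pow_div_factorial_le_exp (l * s) (by positivity) 3
    have h2 : (Nat.factorial 3 : ℝ) = 6 := by norm_num [Nat.factorial]
    rw [h2] at h1
    refine le_trans ?_ h1
    rw [le_div_iff₀ (by norm_num)]
    rw [div_le_iff₀ (by positivity)] at hs2
    have h3 : (s : ℝ) ^ 2 * (6 * B) ≤ (s : ℝ) ^ 2 * (s * l ^ 3) := by gcongr
    nlinarith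
  rcases Nat.eq_zero_or_pos N with hN0 | hN0
  · subst hN0
    have : (0 : ℝ) ≤ (1 + δ₀) ^ s := by positivity
    simpa using this
  have hNR : (1 : ℝ) ≤ N := by exact_mod_cast hN0
  have hlogN : Real.log N ≤ s := by
    have h1 : Real.log N ≤ Real.log ((1 + δ) ^ s) := Real.log_le_log (by linarith) hN
    rw [Real.log_pow] at h1
    have h2 : (s : ℝ) * Real.log (1 + δ) ≤ s * 1 := by
      gcongr
    linarith
  set L : ℝ := (Nat.log 2 (N * (q * K ^ s)) : ℝ) with hL
  have hL1 : L ≤ 2 * (s + Real.log q + s * K) := by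
    have hx0 : N * (q * K ^ s) ≠ 0 := by positivity
    have h1 : 2 ^ Nat.log 2 (N * (q * K ^ s)) ≤ N * (q * K ^ s) := Nat.pow_log_le_self 2 hx0
    have h2 : ((2 : ℝ)) ^ Nat.log 2 (N * (q * K ^ s)) ≤ N * (q * K ^ s) := by exact_mod_cast h1
    have h3 := Real.log_le_log (by positivity) h2
    rw [Real.log_pow, Real.log_mul (by positivity) (by positivity),
      Real.log_mul (by positivity) (by positivity), Real.log_pow] at h3
    have h4 : Real.log K ≤ K := by
      have := Real.log_le_sub_one_of_pos (show (0 : ℝ) < K by linarith)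
      linarith
    have h5 : (s : ℝ) * Real.log K ≤ s * K := by gcongr
    have h8 := Real.log_two_gt_d9
    have hL0 : 0 ≤ L := Nat.cast_nonneg _
    have h9 : L * (1 / 2) ≤ L * Real.log 2 := by
      apply mul_le_mul_of_nonneg_left _ hL0
      linarith
    have h10 : L * Real.log 2 ≤ Real.log N + (Real.log q + s * Real.log K) := h3
    linarith
  have hL2 : 4 + L ≤ (1 + Real.log q) * (s * (4 + 2 * (1 + K))) := by
    have h1 : (0 : ℝ) ≤ Real.log q * s * K := by positivity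
    have h2 : Real.log q ≤ Real.log q * s := by nlinarith
    have h3 : 4 ≤ 4 * (s : ℝ) := by linarith
    have h4 : (1 + Real.log q) * (s * (4 + 2 * (1 + (K : ℝ)))) =
      4 * s + 2 * s + 2 * (s * K) + 4 * (Real.log q * s) + 2 * (Real.log q * s) +
        2 * (Real.log q * s * K) := by ring
    rw [h4]
    linarith
  have hE : (s : ℝ) * c + 1 ≤ s * (c + 1) := by linarith
  have hE0 : 0 ≤ (s : ℝ) * c + 1 := by positivity
  have hL00 : 0 ≤ 4 + L := by
    have : 0 ≤ L := Nat.cast_nonneg _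
    linarith
  have e3 : (N : ℝ) ≤ Real.exp (l * s) := by
    rw [← hpow]
    exact hN
  calc 601 * (4 + L) * N * (s * c + 1)
      ≤ 601 * ((1 + Real.log q) * (s * (4 + 2 * (1 + K)))) * N * (s * (c + 1)) := by gcongr
    _ = (1 + Real.log q) * (B * (s : ℝ) ^ 2) * N := by rw [hB]; ring
    _ ≤ Real.exp (l * s) * Real.exp (l * s) * Real.exp (l * s) := by gcongr
    _ = ((1 + δ) ^ 3) ^ s := by
        rw [← hpow, ← pow_mul, ← pow_add, ← pow_add]
        congr 1
        ring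
    _ ≤ (1 + δ₀) ^ s := by
        apply pow_le_pow_left₀ (by positivity)
        have : δ₀ = 7 * δ := by rw [hδ]; ring
        rw [this]
        nlinarith [sq_nonneg δ, mul_nonneg hδ0.le hδ0.le]

end Pool.Agent.K4H88.SP
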