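import Mathlib
import Pool.Agent.K4H88.SP.Main
import Pool.Agent.K4H88.SP.Num

/-!
# Families of graphs of bounded chromatic number
-/

set_option autoImplicit false

namespace Pool.Agent.K4H88.SP

open SimpleGraph Finset Classical Pool.Agent.TH507.Host Pool.Agent.R34.Ident

theorem large_top {ι : Type} [Fintype ι] {V : ι → Type} [∀ i, Fintype (V i)]
    (G : ∀ i, SimpleGraph (V i)) {K : ℕ} (hK : 1 ≤ K)
    (hlarge : ∀ i, ¬ SmallConn (G i) ((2 * K) ^ 4)) (hr : 3 ≤ Fintype.card ι) :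
    IsMinor (⊤ : SimpleGraph (Fin ((2 * K) ^ Fintype.card ι))) (strongPi G) := by
  have h2 : 2 ≤ (2 * K) ^ 4 := by
    calc 2 ≤ 2 * K := by omega
      _ ≤ (2 * K) ^ 4 := Nat.le_self_pow (by norm_num) _
  have hG : ∀ i, ∃ U : Finset (V i), U.card = (2 * K) ^ 4 ∧
      ((G i).induce (U : Set (V i))).Connected := by
    intro i
    have := hlarge i
    unfold SmallConn at this
    push Not at this
    obtain ⟨U, hU1, hU2⟩ := this
    exact conn_shrink (by omega) U.card U rfl hU2 hU1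
  have h := large_pi (q := (Fintype.card ι - 1) / 2) G h2 hG (by omega)
  refine minor_trans (top_minor ?_) h
  rw [Fintype.card_fun, Fintype.card_fin, Fintype.card_fin, Fintype.card_fin, ← pow_mul]
  exact Nat.pow_le_pow_right (by omega) (by omega)

theorem large_room {ι : Type} [Fintype ι] {V : ι → Type} [∀ i, Fintype (V i)]
    (G : ∀ i, SimpleGraph (V i)) {K : ℕ} (hK : 1 ≤ K) (hcol : ∀ i, (G i).Colorable K)
    (hlarge : ∀ i, ¬ SmallConn (G i) ((2 * K) ^ 4)) (hr : 3 ≤ Fintype.card ι) :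
    Room (2 ^ Fintype.card ι) (strongPi G) := by
  intro k hk
  have h1 : (strongPi G).Colorable (K ^ Fintype.card ι) := by
    have := colorable_pi hcol
    rwa [prod_const, Finset.card_univ] at this
  have h2 : k < K ^ Fintype.card ι := by
    by_contra hcon
    push Not at hcon
    exact hk (h1.mono hcon)
  refine minor_trans (top_minor ?_) (large_top G hK hlarge hr)
  rw [Fintype.card_fin, Fintype.card_fin, mul_pow]
  exact Nat.mul_le_mul_left _ h2

/-- **families in which all graphs are imperfect** -/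
theorem all_gap (K : ℕ) : ∃ (δ : ℝ) (n₀ : ℕ), 0 < δ ∧
    ∀ (ι : Type) [Fintype ι] (V : ι → Type) [∀ i, Fintype (V i)] (G : ∀ i, SimpleGraph (V i)),
      (∀ i, (G i).Colorable K) → (∀ i, Gap (G i)) → n₀ ≤ Fintype.card ι →
      ∀ N : ℕ, (N : ℝ) ≤ (1 + δ) ^ Fintype.card ι → Room N (strongPi G) := by
  -- we may enlarge `K`
  suffices H : ∀ K : ℕ, 1 ≤ K → ∃ (δ : ℝ) (n₀ : ℕ), 0 < δ ∧
      ∀ (ι : Type) [Fintype ι] (V : ι → Type) [∀ i, Fintype (V i)]
        (G : ∀ i, SimpleGraph (V i)),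
        (∀ i, (G i).Colorable K) → (∀ i, Gap (G i)) → n₀ ≤ Fintype.card ι →
        ∀ N : ℕ, (N : ℝ) ≤ (1 + δ) ^ Fintype.card ι → Room N (strongPi G) by
    obtain ⟨δ, n₀, h1, h2⟩ := H (K + 1) (by omega)
    exact ⟨δ, n₀, h1, fun ι _ V _ G hG => h2 ι V G fun i => (hG i).mono (by omega)⟩
  clear K
  intro K hK
  have hM : 1 ≤ (2 * K) ^ 4 := Nat.one_le_iff_ne_zero.2 (by positivity)
  obtain ⟨δ₁, C, hδ₁, hδ₁', hC, hnum⟩ := num K ((2 * K) ^ 4) hK hM
  have hKR : (1 : ℝ) ≤ K := by exact_mod_cast hK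
  set δ : ℝ := δ₁ / 3 with hδ
  have hδ0 : 0 < δ := by positivity
  have hδ3 : (1 + δ) ^ 2 ≤ 1 + δ₁ := by
    have : δ₁ = 3 * δ := by rw [hδ]; ring
    rw [this]
    nlinarith
  have hδ2 : (1 + δ) ^ 2 ≤ 2 := hδ3.trans (by linarith)
  set X : ℝ := C * (1 + Real.log (1 + Real.log ((K ^ 2 : ℕ) : ℝ))) with hX
  set s₀ : ℕ := ⌈X⌉₊ + ⌈1 / δ⌉₊ + 2 with hs₀
  refine ⟨δ, s₀ + 2 * s₀ * K + 3, hδ0, ?_⟩
  intro ι _ V _ G hcol hgap hcard N hN k hk
  -- splitting of the index set
  set p : ι → Prop := fun i => SmallConn (G i) ((2 * K) ^ 4) with hp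
  set PS := strongPi (fun i : {i // p i} => G i.1) with hPS
  set PL := strongPi (fun i : {i // ¬ p i} => G i.1) with hPL
  set s := Fintype.card {i // p i} with hs
  set r := Fintype.card {i // ¬ p i} with hr
  have hsr : s + r = Fintype.card ι := by
    rw [hs, hr, ← Fintype.card_sum]
    exact Fintype.card_congr (Equiv.sumCompl p)
  have e : strong PS PL ≃g strongPi G := splitIso p G
  have hSK : PS.Colorable (K ^ s) := by
    have := colorable_pi (G := fun i : {i // p i} => G i.1) (a := fun _ => K) fun i => hcol i.1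
    rwa [prod_const, Finset.card_univ] at this
  have hLK : PL.Colorable (K ^ r) := by
    have := colorable_pi (G := fun i : {i // ¬ p i} => G i.1) (a := fun _ => K)
      fun i => hcol i.1
    rwa [prod_const, Finset.card_univ] at this
  have hs0R : X ≤ (s₀ : ℝ) ∧ 1 / δ ≤ (s₀ : ℝ) := by
    have h1 := Nat.le_ceil X
    have h2 := Nat.le_ceil (1 / δ)
    have h3 : (0 : ℝ) ≤ (⌈X⌉₊ : ℝ) := Nat.cast_nonneg _
    have h4 : (0 : ℝ) ≤ (⌈1 / δ⌉₊ : ℝ) := Nat.cast_nonneg _
    have h5 : (s₀ : ℝ) = ⌈X⌉₊ + ⌈1 / δ⌉₊ + 2 := by rw [hs₀]; push_cast; ring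
    constructor <;> linarith
  have hlogK : 0 ≤ Real.log ((K ^ 2 : ℕ) : ℝ) := by
    apply Real.log_nonneg
    push_cast
    nlinarith
  rcases Nat.lt_or_ge s s₀ with hcase | hcase
  · -- few small graphs
    have hr3 : 3 ≤ r := by
      have : 0 ≤ 2 * s₀ * K := Nat.zero_le _
      omega
    have hrb : 2 * s₀ * K ≤ r := by omega
    have hk1 : k + 1 ≤ K ^ (s + r) := by
      by_contra hcon
      push Not at hcon
      apply hk
      have h1 := colorable_pi hcol
      rw [prod_const, Finset.card_univ, ← hsr] at h1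
      exact h1.mono (by omega)
    have hle : N * (k + 1) ≤ (2 * K) ^ r := by
      have h1 : (N : ℝ) * (k + 1) ≤ (1 + δ) ^ (s + r) * (K : ℝ) ^ (s + r) := by
        rw [← hsr] at hN
        have : ((k : ℝ) + 1) ≤ (K : ℝ) ^ (s + r) := by exact_mod_cast hk1
        gcongr
      have h2 : ((1 + δ) ^ (s + r) * (K : ℝ) ^ (s + r)) ^ 2 ≤ ((2 * (K : ℝ)) ^ r) ^ 2 := by
        have h3 : ((1 + δ) ^ (s + r) * (K : ℝ) ^ (s + r)) ^ 2 =
            ((1 + δ) ^ 2) ^ s * ((1 + δ) ^ 2) ^ r * ((K : ℝ) ^ 2) ^ s * ((K : ℝ) ^ 2) ^ r := by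
          simp only [← pow_mul, mul_pow]
          rw [show (s + r) * 2 = 2 * s + 2 * r by ring, pow_add, pow_add]
          ring
        have h4 : ((2 * (K : ℝ)) ^ r) ^ 2 = 2 ^ r * 2 ^ r * ((K : ℝ) ^ 2) ^ r := by
          rw [mul_pow, mul_pow, ← pow_mul, ← pow_mul, ← pow_mul, mul_comm r 2, two_mul, pow_add]
        have h5 : (2 : ℝ) ^ s * ((K : ℝ) ^ 2) ^ s ≤ 2 ^ r := by
          have h6 : 2 * K ≤ 2 ^ K := by
            have h7 : K - 1 < 2 ^ (K - 1) := Nat.lt_two_pow_self
            have h8 : 2 ^ K = 2 * 2 ^ (K - 1) := by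
              rw [← pow_succ', Nat.sub_add_cancel hK]
            omega
          have h7 : 2 * K ^ 2 ≤ 2 ^ (2 * K) := by
            calc 2 * K ^ 2 ≤ (2 * K) * (2 * K) := by nlinarith
              _ ≤ 2 ^ K * 2 ^ K := Nat.mul_le_mul h6 h6
              _ = 2 ^ (2 * K) := by rw [two_mul, pow_add]
          have h8 : (2 * K ^ 2) ^ s ≤ 2 ^ r := by
            calc (2 * K ^ 2) ^ s ≤ (2 ^ (2 * K)) ^ s := Nat.pow_le_pow_left h7 s
              _ = 2 ^ (2 * K * s) := by rw [← pow_mul]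
              _ ≤ 2 ^ r := by
                  apply Nat.pow_le_pow_right (by norm_num)
                  calc 2 * K * s ≤ 2 * K * s₀ := Nat.mul_le_mul_left _ hcase.le
                    _ = 2 * s₀ * K := by ring
                    _ ≤ r := hrb
          rw [← mul_pow]
          exact_mod_cast h8
        rw [h3, h4]
        calc ((1 + δ) ^ 2) ^ s * ((1 + δ) ^ 2) ^ r * ((K : ℝ) ^ 2) ^ s * ((K : ℝ) ^ 2) ^ r
            ≤ 2 ^ s * 2 ^ r * ((K : ℝ) ^ 2) ^ s * ((K : ℝ) ^ 2) ^ r := by gcongr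
          _ = (2 ^ s * ((K : ℝ) ^ 2) ^ s) * 2 ^ r * ((K : ℝ) ^ 2) ^ r := by ring
          _ ≤ 2 ^ r * 2 ^ r * ((K : ℝ) ^ 2) ^ r := by gcongr
      have h7 : (1 + δ) ^ (s + r) * (K : ℝ) ^ (s + r) ≤ (2 * (K : ℝ)) ^ r :=
        le_of_sq_le_sq h2 (by positivity)
      have h8 := h1.trans h7
      exact_mod_cast h8
    -- the product of the small graphs is not empty
    have hne : ∀ i, Nonempty (V i) := by
      intro i
      by_contra hcon
      rw [not_nonempty_iff] at hcon
      apply hk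
      have : IsEmpty (∀ i, V i) := ⟨fun x => hcon.elim (x i)⟩
      exact ⟨Coloring.mk (fun v => this.elim v) fun {v} => this.elim v⟩
    have hne' : Nonempty (∀ i : {i // p i}, V i.1) := ⟨fun i => (hne i.1).some⟩
    obtain ⟨x₀⟩ := hne'
    have h1 : IsMinor (⊤ : SimpleGraph (Fin ((2 * K) ^ r))) PL :=
      large_top (fun i : {i // ¬ p i} => G i.1) hK (fun i => i.2) hr3
    have h2 : IsMinor PL (strong PS PL) := by
      refine minor_inj (fun y => (x₀, y)) (fun y z h => congrArg Prod.snd h) ?_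
      intro y z hyz
      exact ⟨fun h => hyz.ne (congrArg Prod.snd h), Or.inl rfl, Or.inr hyz⟩
    exact minor_trans (top_minor (β := Fin ((2 * K) ^ r)) (by simpa using hle))
      (minor_trans h1 (minor_trans h2 (minor_iso e)))
  · have hcR : (s₀ : ℝ) ≤ s := by exact_mod_cast hcase
    have hs2 : 2 ≤ s := by omega
    rcases Nat.lt_or_ge r 3 with hr3 | hr3
    · -- at most two large graphs
      have hN1 : (N : ℝ) ≤ (1 + δ₁) ^ s := by
        refine hN.trans ?_
        rw [← hsr]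
        calc (1 + δ) ^ (s + r) ≤ (1 + δ) ^ (2 * s) :=
              pow_le_pow_right₀ (by linarith) (by omega)
          _ = ((1 + δ) ^ 2) ^ s := by rw [pow_mul]
          _ ≤ (1 + δ₁) ^ s := pow_le_pow_left₀ (by positivity) hδ3 s
      have h1 := hnum s (K ^ 2) N (Nat.one_le_iff_ne_zero.2 (by positivity))
        (hs0R.1.trans hcR) hN1
      have h2 : PL.Colorable (K ^ 2) := hLK.mono (Nat.pow_le_pow_right hK (by omega))
      have h3 := core (fun i : {i // p i} => G i.1) hM (fun i => hcol i.1) (fun i => hgap i.1)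
        (fun i => i.2) PL h2 h1
      exact room_iso e (room_iso (commIso PL PS) h3) k hk
    · -- many small graphs, at least three large graphs
      have hx : 2 ≤ (1 + δ) ^ s := by
        have h1 := one_add_mul_le_pow (show -2 ≤ δ by linarith) s
        have h2 : 1 ≤ (s : ℝ) * δ := by
          have := hs0R.2.trans hcR
          rwa [div_le_iff₀ hδ0] at this
        linarith
      have hx2 : (1 + δ) ^ s + 1 ≤ (1 + δ₁) ^ s := by
        have h1 : ((1 + δ) ^ s) ^ 2 ≤ (1 + δ₁) ^ s := by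
          rw [← pow_mul, mul_comm, pow_mul]
          exact pow_le_pow_left₀ (by positivity) hδ3 s
        nlinarith
      set N' : ℕ := ⌊(1 + δ₁) ^ s⌋₊ with hN'
      have hN'1 : (N' : ℝ) ≤ (1 + δ₁) ^ s := Nat.floor_le (by positivity)
      have hN'2 : (1 + δ) ^ s ≤ (N' : ℝ) := by
        have := Nat.lt_floor_add_one ((1 + δ₁) ^ s)
        rw [← hN'] at this
        linarith
      have h1 := hnum s 1 N' le_rfl (by
        refine le_trans ?_ (hs0R.1.trans hcR)
        rw [hX]
        simp only [Nat.cast_one, Real.log_one, add_zero]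
        apply mul_le_mul_of_nonneg_left _ hC.le
        have := Real.log_nonneg (show 1 ≤ 1 + Real.log ((K ^ 2 : ℕ) : ℝ) by linarith)
        linarith) hN'1
      have h2 : (⊥ : SimpleGraph Unit).Colorable 1 :=
        ⟨Coloring.mk (fun _ => 0) fun {v w} h => absurd h (by simp)⟩
      have h3 := core (fun i : {i // p i} => G i.1) hM (fun i => hcol i.1) (fun i => hgap i.1)
        (fun i => i.2) (⊥ : SimpleGraph Unit) h2 h1
      have h4 : Room N' PS := room_iso (unitIso PS) h3
      have h5 : Room (2 ^ r) PL :=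
        large_room (fun i : {i // ¬ p i} => G i.1) hK (fun i => hcol i.1) (fun i => i.2) hr3
      have h6 := room_prod hSK hLK h4 h5
      have h7 : N ≤ N' * 2 ^ r := by
        have h8 : (N : ℝ) ≤ N' * 2 ^ r := by
          refine hN.trans ?_
          rw [← hsr, pow_add]
          have h9 : (1 + δ) ≤ 2 := by nlinarith
          gcongr
        exact_mod_cast h8
      exact room_iso e (room_mono h7 h6) k hk

end Pool.Agent.K4H88.SP
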